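import Mathlib

/-!
# The characteristic polynomials of paths

`D x n` is the value at `x` of the characteristic polynomial of the path with `n` vertices.
-/

set_option autoImplicit false
set_option linter.unusedSectionVars false

namespace Pool.Agent.K4H86.SS

open Polynomial

/-- The value at `x` of the characteristic polynomial of the path with `n` vertices. -/
def D {R : Type*} [CommRing R] (x : R) : ℕ → R
  | 0 => 1
  | 1 => x
  | n + 2 => x * D x (n + 1) - D x n

section basic

variable {R : Type*} [CommRing R]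

@[simp] theorem D_zero (x : R) : D x 0 = 1 := rfl
@[simp] theorem D_one (x : R) : D x 1 = x := rfl
theorem D_add_two (x : R) (n : ℕ) : D x (n + 2) = x * D x (n + 1) - D x n := rfl

theorem map_D {S : Type*} [CommRing S] (f : R →+* S) (x : R) (n : ℕ) :
    f (D x n) = D (f x) n := by
  induction n using Nat.strong_induction_on with
  | _ n ih =>
    match n with
    | 0 => simp
    | 1 => simp
    | n + 2 =>
      rw [D_add_two, D_add_two, map_sub, map_mul, ih (n + 1) (by omega), ih n (by omega)]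

/-- The Casoratian identity. -/
theorem D_cas (x : R) (a k : ℕ) :
    D x (a + 1) * D x (a + k + 1) - D x a * D x (a + k + 2) = D x k := by
  induction a with
  | zero =>
    simp only [zero_add, D_one, D_zero, one_mul]
    rw [D_add_two]
    ring
  | succ a ih =>
    have h1 : a + 1 + k + 1 = a + k + 2 := by omega
    have h2 : a + 1 + k + 2 = (a + k + 1) + 2 := by omega
    rw [h1, h2, D_add_two x a, D_add_two x (a + k + 1), ← ih]
    have h3 : a + k + 1 + 1 = a + k + 2 := by omega
    rw [h3]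
    ring

theorem D_sq (x : R) (a : ℕ) : D x (a + 1) ^ 2 - D x a * D x (a + 2) = 1 := by
  have := D_cas x a 0
  simp only [add_zero, D_zero] at this
  rw [← this]
  ring

/-- `Zn x` : the point `x` is a zero of one of the polynomials. -/
def Cyc (x : R) : Prop := ∃ r : ℕ, 1 ≤ r ∧ D x r = 0

theorem D_period {x : R} {r : ℕ} (hr : D x r = 0) (t : ℕ) :
    ∃ e : R, e * e = 1 ∧ ∀ k, D x ((r + 1) * t + k) = e * D x k := by
  induction t with
  | zero => exact ⟨1, by ring, fun k => by rw [mul_zero, zero_add, one_mul]⟩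
  | succ t ih =>
    obtain ⟨e, he, hk⟩ := ih
    have h1 : D x (r + 1) * D x (r + 1) = 1 := by
      have := D_sq x r
      rw [hr, zero_mul, sub_zero] at this
      rw [← this]
      ring
    refine ⟨e * D x (r + 1), ?_, ?_⟩
    · calc e * D x (r + 1) * (e * D x (r + 1)) = (e * e) * (D x (r + 1) * D x (r + 1)) := by ring
        _ = 1 := by rw [he, h1, one_mul]
    · intro k
      have key : ∀ k, D x (r + 1 + k) = D x (r + 1) * D x k := by
        intro k
        induction k using Nat.strong_induction_on with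
        | _ k ih2 =>
          match k with
          | 0 => simp
          | 1 =>
            have : r + 1 + 1 = r + 2 := by omega
            rw [this, D_add_two, hr, D_one]
            ring
          | k + 2 =>
            have e1 : r + 1 + (k + 2) = (r + 1 + k) + 2 := by omega
            have e2 : r + 1 + k + 1 = r + 1 + (k + 1) := by omega
            rw [e1, D_add_two, e2, ih2 (k + 1) (by omega), ih2 k (by omega), D_add_two]
            ring
      have e3 : (r + 1) * (t + 1) + k = (r + 1) * t + (r + 1 + k) := by ring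
      rw [e3, hk, key, mul_assoc]

end basic

/-! ### Complex roots -/

theorem D_z {z : ℂ} (hz : z ≠ 0) (n : ℕ) :
    D (z + z⁻¹) n * (z - z⁻¹) = z ^ (n + 1) - (z⁻¹) ^ (n + 1) := by
  induction n using Nat.strong_induction_on with
  | _ n ih =>
    match n with
    | 0 => simp
    | 1 => simp; ring
    | n + 2 =>
      rw [D_add_two, sub_mul, mul_assoc, ih (n + 1) (by omega), ih n (by omega)]
      have h1 : z * z⁻¹ = 1 := mul_inv_cancel₀ hz
      have e1 : z * (z⁻¹) ^ (n + 1 + 1) = (z⁻¹) ^ (n + 1) := by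
        rw [pow_succ' (z⁻¹) (n + 1), ← mul_assoc, h1, one_mul]
      have e2 : z⁻¹ * z ^ (n + 1 + 1) = z ^ (n + 1) := by
        rw [pow_succ' z (n + 1), ← mul_assoc, mul_comm z⁻¹ z, h1, one_mul]
      calc (z + z⁻¹) * (z ^ (n + 1 + 1) - z⁻¹ ^ (n + 1 + 1)) - (z ^ (n + 1) - z⁻¹ ^ (n + 1))
          = z * z ^ (n + 1 + 1) - z * (z⁻¹) ^ (n + 1 + 1) + z⁻¹ * z ^ (n + 1 + 1)
            - z⁻¹ * z⁻¹ ^ (n + 1 + 1) - (z ^ (n + 1) - z⁻¹ ^ (n + 1)) := by ring
        _ = z * z ^ (n + 1 + 1) - z⁻¹ * z⁻¹ ^ (n + 1 + 1) := by rw [e1, e2]; ring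
        _ = _ := by ring

theorem D_two (n : ℕ) : D (2 : ℂ) n = n + 1 := by
  induction n using Nat.strong_induction_on with
  | _ n ih =>
    match n with
    | 0 => simp
    | 1 => norm_num
    | n + 2 =>
      rw [D_add_two, ih (n + 1) (by omega), ih n (by omega)]
      push_cast
      ring

theorem D_neg_two (n : ℕ) : D (-2 : ℂ) n = (-1) ^ n * (n + 1) := by
  induction n using Nat.strong_induction_on with
  | _ n ih =>
    match n with
    | 0 => simp
    | 1 => norm_num
    | n + 2 =>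
      rw [D_add_two, ih (n + 1) (by omega), ih n (by omega)]
      push_cast
      ring

/-- The zeros are real and of modulus less than two. -/
theorem real_of_D {y : ℂ} {r : ℕ} (hr : D y r = 0) : ∃ u : ℝ, y = u ∧ |u| < 2 := by
  obtain ⟨z, hz⟩ : ∃ z : ℂ, z ^ 2 - y * z + 1 = 0 := by
    have hdeg : (X ^ 2 - C y * X + 1 : ℂ[X]).degree ≠ 0 := by
      have : (X ^ 2 - C y * X + 1 : ℂ[X]) = C 1 * X ^ 2 + C (-y) * X + C 1 := by
        simp
        ring
      rw [this, degree_quadratic one_ne_zero]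
      norm_num
    obtain ⟨z, hz⟩ := IsAlgClosed.exists_root _ hdeg
    refine ⟨z, ?_⟩
    simpa [IsRoot] using hz
  have hz0 : z ≠ 0 := by
    rintro rfl
    simp at hz
  have hy : y = z + z⁻¹ := by
    field_simp
    linear_combination -hz
  have h1 := D_z hz0 r
  rw [← hy, hr, zero_mul] at h1
  have h2 : z ^ (2 * (r + 1)) = 1 := by
    have h3 : z ^ (r + 1) = (z⁻¹) ^ (r + 1) := by linear_combination -h1
    calc z ^ (2 * (r + 1)) = z ^ (r + 1) * z ^ (r + 1) := by ring
      _ = z ^ (r + 1) * (z⁻¹) ^ (r + 1) := by rw [← h3]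
      _ = (z * z⁻¹) ^ (r + 1) := by rw [mul_pow]
      _ = 1 := by rw [mul_inv_cancel₀ hz0, one_pow]
  have hn : ‖z‖ = 1 := by
    have h3 : ‖z‖ ^ (2 * (r + 1)) = 1 := by rw [← norm_pow, h2, norm_one]
    exact (pow_eq_one_iff_of_nonneg (norm_nonneg z) (by omega)).1 h3
  have hinv : z⁻¹ = (starRingEnd ℂ) z := by
    rw [Complex.inv_def, Complex.normSq_eq_norm_sq, hn]
    simp
  have hyr : y = ((2 * z.re : ℝ) : ℂ) := by
    rw [hy, hinv, Complex.add_conj]
  refine ⟨2 * z.re, hyr, ?_⟩
  have h4 : |z.re| ≤ 1 := by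
    have := Complex.abs_re_le_norm z
    rwa [hn] at this
  have h5 : |2 * z.re| ≤ 2 := by
    rw [abs_mul, abs_two]
    linarith
  refine lt_of_le_of_ne h5 fun h6 => ?_
  rcases eq_or_eq_neg_of_abs_eq h6 with h7 | h7
  · rw [h7] at hyr
    rw [hyr] at hr
    have h8 := D_two r
    push_cast at hr
    rw [h8] at hr
    have : ((r : ℂ) + 1) ≠ 0 := by exact_mod_cast Nat.succ_ne_zero r
    exact this hr
  · rw [h7] at hyr
    rw [hyr] at hr
    have h8 := D_neg_two r
    push_cast at hr
    rw [h8] at hr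
    have h9 : ((r : ℂ) + 1) ≠ 0 := by exact_mod_cast Nat.succ_ne_zero r
    exact mul_ne_zero (pow_ne_zero _ (by norm_num)) h9 hr

/-! ### Algebraic integers all of whose conjugates are small -/

/-- If an integral polynomial is small at all conjugates of an algebraic integer then it
vanishes there. -/
theorem aeval_eq_zero {x : ℂ} (hx : IsIntegral ℤ x) (g : ℤ[X])
    (h : ∀ y : ℂ, aeval y (minpoly ℚ x) = 0 → ‖aeval y g‖ < 1) : aeval x g = 0 := by
  have hxQ : IsIntegral ℚ x := hx.tower_top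
  let K := IntermediateField.adjoin ℚ {x}
  have hfin : FiniteDimensional ℚ K := IntermediateField.adjoin.finiteDimensional hxQ
  let α : K := IntermediateField.AdjoinSimple.gen ℚ x
  have hα : algebraMap K ℂ α = x := IntermediateField.AdjoinSimple.algebraMap_gen ℚ x
  let β : K := aeval α g
  have hβ : algebraMap K ℂ β = aeval x g := by
    rw [← hα]
    exact (aeval_algebraMap_apply ℂ α g).symm
  have hint : IsIntegral ℤ β := by
    have h1 : IsIntegral ℤ α := by
      refine (isIntegral_algebraMap_iff (A := K) (B := ℂ) (algebraMap K ℂ).injective).1 ?_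
      rw [hα]
      exact hx
    have h2 : IsIntegral ℤ (aeval α g) := by
      have h3 : aeval α g ∈ Algebra.adjoin ℤ ({α} : Set K) := aeval_mem_adjoin_singleton ℤ α
      exact (adjoin_le_integralClosure h1) h3
    exact h2
  have hnorm : IsIntegral ℤ (Algebra.norm ℚ β) := Algebra.isIntegral_norm ℚ hint
  obtain ⟨n, hn⟩ := IsIntegrallyClosed.isIntegral_iff.1 hnorm
  have hprod := Algebra.norm_eq_prod_embeddings ℚ ℂ β
  have hlt : ‖algebraMap ℚ ℂ (Algebra.norm ℚ β)‖ < 1 := by
    rw [hprod, norm_prod]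
    have hne : (Finset.univ : Finset (K →ₐ[ℚ] ℂ)).Nonempty :=
      ⟨IsScalarTower.toAlgHom ℚ K ℂ, Finset.mem_univ _⟩
    have hall : ∀ σ : K →ₐ[ℚ] ℂ, ‖σ β‖ < 1 := by
      intro σ
      have h4 : σ β = aeval (σ α) g := by
        exact (Polynomial.aeval_algHom_apply (σ.restrictScalars ℤ) α g).symm
      rw [h4]
      refine h _ ?_
      have h6 : aeval (σ α) (minpoly ℚ x) = σ (aeval α (minpoly ℚ x)) := by
        rw [← Polynomial.aeval_algHom_apply]
      rw [h6]
      have h7 : aeval α (minpoly ℚ x) = 0 := by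
        have h8 : algebraMap K ℂ (aeval α (minpoly ℚ x)) = 0 := by
          rw [← aeval_algebraMap_apply, hα, minpoly.aeval]
        exact (map_eq_zero _).1 h8
      rw [h7, map_zero]
    classical
    obtain ⟨σ0, hσ0⟩ := hne
    rw [← Finset.mul_prod_erase _ _ hσ0]
    calc ‖σ0 β‖ * ∏ σ ∈ Finset.univ.erase σ0, ‖σ β‖ ≤ ‖σ0 β‖ * 1 := by
          refine mul_le_mul_of_nonneg_left ?_ (norm_nonneg _)
          exact Finset.prod_le_one (fun _ _ => norm_nonneg _) fun σ _ => (hall σ).le
      _ < 1 := by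
        rw [mul_one]
        exact hall σ0
  have hn0 : n = 0 := by
    rw [← hn] at hlt
    have h9 : ‖((n : ℤ) : ℂ)‖ < 1 := by simpa using hlt
    rw [Complex.norm_intCast] at h9
    have h10 : |(n : ℝ)| < 1 := h9
    have h11 : |n| < 1 := by exact_mod_cast h10
    exact Int.abs_lt_one_iff.1 h11
  rw [hn0, map_zero] at hn
  have h12 : β = 0 := Algebra.norm_eq_zero_iff.1 hn.symm
  rw [← hβ, h12, map_zero]

/-- Conjugates of a real zero. -/
theorem real_conj {x : ℝ} {r : ℕ} (hr : D x r = 0) {W : ℤ[X]} (hW : aeval x W = 0) {y : ℂ}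
    (hy : aeval y (minpoly ℚ (x : ℂ)) = 0) : D y r = 0 ∧ aeval y W = 0 := by
  have key : ∀ P : ℤ[X], aeval (x : ℂ) P = 0 → aeval y P = 0 := by
    intro P hP
    have h1 : aeval (x : ℂ) (P.map (algebraMap ℤ ℚ)) = 0 := by
      rw [aeval_map_algebraMap, hP]
    obtain ⟨Q, hQ⟩ := minpoly.dvd ℚ (x : ℂ) h1
    have h2 : aeval y (P.map (algebraMap ℤ ℚ)) = 0 := by
      rw [hQ, map_mul, hy, zero_mul]
    rwa [aeval_map_algebraMap] at h2
  constructor
  · have h1 : aeval y (D (X : ℤ[X]) r) = D y r := by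
      have := map_D (aeval y : ℤ[X] →ₐ[ℤ] ℂ).toRingHom X r
      simpa using this
    have h2 : aeval (x : ℂ) (D (X : ℤ[X]) r) = D (x : ℂ) r := by
      have := map_D (aeval (x : ℂ) : ℤ[X] →ₐ[ℤ] ℂ).toRingHom X r
      simpa using this
    rw [← h1]
    refine key _ ?_
    rw [h2]
    have h3 := map_D (algebraMap ℝ ℂ) x r
    rw [hr, map_zero] at h3
    exact h3.symm
  · refine key W ?_
    have h3 : aeval (algebraMap ℝ ℂ x) W = algebraMap ℝ ℂ (aeval x W) :=
      aeval_algebraMap_apply ℂ x W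
    rw [hW, map_zero] at h3
    exact h3

theorem monic_D (r : ℕ) : (D (X : ℤ[X]) r).Monic ∧ (D (X : ℤ[X]) r).natDegree = r := by
  induction r using Nat.strong_induction_on with
  | _ n ih =>
    match n with
    | 0 => exact ⟨monic_one, natDegree_one⟩
    | 1 => exact ⟨monic_X, natDegree_X⟩
    | n + 2 =>
      obtain ⟨h1, h2⟩ := ih (n + 1) (by omega)
      obtain ⟨h3, h4⟩ := ih n (by omega)
      have h5 : (X * D (X : ℤ[X]) (n + 1)).Monic := monic_X.mul h1
      have h6 : (X * D (X : ℤ[X]) (n + 1)).natDegree = n + 2 := by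
        rw [monic_X.natDegree_mul h1, natDegree_X, h2]
        omega
      have h7 : (D (X : ℤ[X]) n).degree < (X * D (X : ℤ[X]) (n + 1)).degree := by
        rw [degree_eq_natDegree h3.ne_zero, degree_eq_natDegree h5.ne_zero, h4, h6]
        exact_mod_cast (by omega : n < n + 2)
      rw [D_add_two]
      refine ⟨h5.sub_of_left h7, ?_⟩
      rw [natDegree_sub_eq_left_of_natDegree_lt, h6]
      rw [h4, h6]
      omega

theorem integral_of_D {x : ℝ} {r : ℕ} (hr : D x r = 0) : IsIntegral ℤ x := by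
  refine ⟨D (X : ℤ[X]) r, (monic_D r).1, ?_⟩
  have := map_D (aeval x : ℤ[X] →ₐ[ℤ] ℝ).toRingHom X r
  rw [← hr]
  simpa [aeval_def] using this

/-- Half of a zero is an algebraic integer only for the zero `0`. -/
theorem eq_zero_of_half {y : ℝ} (hy : IsIntegral ℤ y) (hc : Cyc (2 * y)) : y = 0 := by
  obtain ⟨r, hr1, hr⟩ := hc
  have hyC : IsIntegral ℤ (y : ℂ) := hy.algebraMap (B := ℂ)
  have h1 := aeval_eq_zero hyC X (by
    intro w hw
    have key : ∀ P : ℤ[X], aeval (y : ℂ) P = 0 → aeval w P = 0 := by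
      intro P hP
      have h1 : aeval (y : ℂ) (P.map (algebraMap ℤ ℚ)) = 0 := by
        rw [aeval_map_algebraMap, hP]
      obtain ⟨Q, hQ⟩ := minpoly.dvd ℚ (y : ℂ) h1
      have h2 : aeval w (P.map (algebraMap ℤ ℚ)) = 0 := by
        rw [hQ, map_mul, hw, zero_mul]
      rwa [aeval_map_algebraMap] at h2
    have h2 : ∀ u : ℂ, aeval u ((D (X : ℤ[X]) r).comp (2 * X)) = D (2 * u) r := by
      intro u
      have e0 : aeval u (2 * X : ℤ[X]) = 2 * u := by rw [map_mul, aeval_X, map_ofNat]
      rw [aeval_comp, e0]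
      have := map_D (aeval (2 * u) : ℤ[X] →ₐ[ℤ] ℂ).toRingHom X r
      simpa using this
    have h3 : D (2 * w) r = 0 := by
      rw [← h2]
      refine key _ ?_
      rw [h2]
      have h4 := map_D (algebraMap ℝ ℂ) (2 * y) r
      rw [hr, map_zero] at h4
      simpa using h4.symm
    obtain ⟨u, hu, hlt⟩ := real_of_D h3
    rw [aeval_X]
    have h5 : ‖2 * w‖ < 2 := by
      rw [hu, Complex.norm_real]
      exact hlt
    rw [norm_mul, Complex.norm_ofNat] at h5
    linarith)
  rw [aeval_X] at h1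
  exact_mod_cast h1

theorem D_even_zero (a : ℕ) : D (0 : ℝ) (2 * a) * D (0 : ℝ) (2 * a) = 1 ∧
    D (0 : ℝ) (2 * a + 1) = 0 := by
  induction a with
  | zero => simp
  | succ a ih =>
    have e1 : 2 * (a + 1) = 2 * a + 2 := by ring
    have e2 : 2 * (a + 1) + 1 = (2 * a + 1) + 2 := by ring
    rw [e2, D_add_two, e1, D_add_two, ih.2]
    constructor
    · rw [mul_zero, zero_sub]
      linear_combination ih.1
    · ring

/-- The coupling of an edge is not critical at the zeros of the polynomials. -/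
theorem edge_ne {x : ℝ} (hx : Cyc x) {a : ℕ} (ha : Even a) :
    x * D x (a + 1) ≠ 4 * D x a := by
  intro h
  obtain ⟨r, hr1, hr⟩ := hx
  let W : ℤ[X] := X * D X (a + 1) - 4 * D X a
  have hWv : ∀ {S : Type} [CommRing S] (u : S), aeval u W = u * D u (a + 1) - 4 * D u a := by
    intro S _ u
    have e1 := map_D (aeval u : ℤ[X] →ₐ[ℤ] S).toRingHom X (a + 1)
    have e2 := map_D (aeval u : ℤ[X] →ₐ[ℤ] S).toRingHom X a
    simp only [AlgHom.toRingHom_eq_coe, RingHom.coe_coe, aeval_X] at e1 e2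
    simp only [W, map_sub, map_mul, aeval_X, e1, e2, map_ofNat]
  have hW : aeval x W = 0 := by rw [hWv, h, sub_self]
  have hint : IsIntegral ℤ (x : ℂ) := (integral_of_D hr).algebraMap (B := ℂ)
  have hval : ∀ {S : Type} [CommRing S] (u : S), aeval u (D (X : ℤ[X]) a) = D u a := by
    intro S _ u
    have e2 := map_D (aeval u : ℤ[X] →ₐ[ℤ] S).toRingHom X a
    simpa using e2
  have h1 := aeval_eq_zero hint (D X a) (by
    intro w hw
    obtain ⟨h2, h3⟩ := real_conj hr hW hw
    obtain ⟨u, hu, hlt⟩ := real_of_D h2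
    rw [hWv, hu] at h3
    rw [hval, hu]
    have e1 : D (u : ℂ) (a + 1) = ((D u (a + 1) : ℝ) : ℂ) :=
      (map_D (algebraMap ℝ ℂ) u (a + 1)).symm
    have e2 : D (u : ℂ) a = ((D u a : ℝ) : ℂ) := (map_D (algebraMap ℝ ℂ) u a).symm
    rw [e1, e2] at h3
    have h4 : u * D u (a + 1) - 4 * D u a = 0 := by exact_mod_cast h3
    rw [e2, Complex.norm_real, Real.norm_eq_abs]
    have h5 := D_sq u a
    rw [D_add_two] at h5
    have h6 : u ^ 2 < 4 := by
      have := sq_lt_sq' (abs_lt.1 hlt).1 (abs_lt.1 hlt).2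
      linarith
    have h7 : D u (a + 1) ^ 2 = 1 + 3 * D u a ^ 2 := by
      linear_combination h5 + D u a * h4
    have h8 : u ^ 2 * D u (a + 1) ^ 2 = 16 * D u a ^ 2 := by
      have : u * D u (a + 1) = 4 * D u a := by linarith
      calc u ^ 2 * D u (a + 1) ^ 2 = (u * D u (a + 1)) ^ 2 := by ring
        _ = _ := by rw [this]; ring
    have h9 : D u a ^ 2 < 1 := by
      rw [h7] at h8
      have h10 : u ^ 2 * (1 + 3 * D u a ^ 2) < 4 * (1 + 3 * D u a ^ 2) := by
        refine mul_lt_mul_of_pos_right h6 ?_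
        positivity
      linarith
    exact (sq_lt_one_iff_abs_lt_one _).1 h9)
  rw [hval] at h1
  have h2 : D x a = 0 := by
    have e2 : D (x : ℂ) a = ((D x a : ℝ) : ℂ) := (map_D (algebraMap ℝ ℂ) x a).symm
    rw [e2] at h1
    exact_mod_cast h1
  have h3 := D_sq x a
  rw [h2, mul_zero] at h
  rw [h2, zero_mul, sub_zero] at h3
  have h4 : D x (a + 1) ≠ 0 := by
    intro h5
    rw [h5] at h3
    norm_num at h3
  have h5 : x = 0 := (mul_eq_zero.1 h).resolve_right h4
  subst h5
  obtain ⟨b, hb⟩ := ha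
  have h6 := (D_even_zero b).1
  have h7 : 2 * b = a := by omega
  rw [h7, h2] at h6
  norm_num at h6

/-! ### Growth -/

theorem D_growth {x : ℝ} (hx : 2 ≤ x) (n : ℕ) : 0 < D x n ∧ (x - 1) * D x n ≤ D x (n + 1) ∧
    D x (n + 1) ≤ x * D x n := by
  induction n with
  | zero =>
    rw [D_zero, zero_add, D_one]
    refine ⟨one_pos, by linarith, by linarith⟩
  | succ n ih =>
    obtain ⟨h1, h2, h3⟩ := ih
    have h4 : D x n ≤ D x (n + 1) := by nlinarith
    have e : n + 1 + 1 = n + 2 := rfl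
    rw [e, D_add_two]
    refine ⟨by linarith, by nlinarith, by linarith⟩

end Pool.Agent.K4H86.SS
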