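import Pool.Agent.K4H86.SS.Graph

/-!
# The local isomorphisms of the graphs with pendant paths
-/

set_option autoImplicit false
set_option linter.unusedSectionVars false

namespace Pool.Agent.K4H86.SS

open Finset Pool.Agent.Y598.IM Pool.Agent.W185.SRG Pool.Agent.Y598.VT Pool.Agent.Y598.CG

variable {r : ℕ} [NeZero r] {m : Lp r → ℕ}

/-- The shift of the vertices. -/
def dsh (M : Ed r → ZMod 2) : DV m → DV m
  | Sum.inl p => Sum.inl ⟨sh M p.1, p.2⟩
  | Sum.inr v => Sum.inr v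

theorem dsh_zero (x : DV m) : dsh 0 x = x := by
  rcases x with ⟨x, i⟩ | v
  · obtain ⟨v, β⟩ := x
    have h3 : (sh 0 (v, β)).2 = β := congrArg Prod.snd (sh_zero (v, β))
    show (Sum.inl ⟨(v, (sh 0 (v, β)).2), i⟩ : DV m) = Sum.inl ⟨(v, β), i⟩
    rw [h3]
  · rfl

theorem dsh_add (M M' : Ed r → ZMod 2) (x : DV m) : dsh (M + M') x = dsh M (dsh M' x) := by
  rcases x with ⟨x, i⟩ | v
  · obtain ⟨v, β⟩ := x
    show (Sum.inl ⟨sh (M + M') (v, β), i⟩ : DV m) = Sum.inl ⟨sh M (sh M' (v, β)), i⟩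
    have h : sh (M + M') (v, β) = sh M (sh M' (v, β)) := sh_add M M' _
    have h3 : (sh (M + M') (v, β)).2 = (sh M (sh M' (v, β))).2 := congrArg Prod.snd h
    show (Sum.inl ⟨(v, (sh (M + M') (v, β)).2), i⟩ : DV m) =
      Sum.inl ⟨(v, (sh M (sh M' (v, β))).2), i⟩
    rw [h3]
  · rfl

/-- The shift as a permutation. -/
def dshV (M : Ed r → ZMod 2) : DV m ≃ DV m where
  toFun := dsh M
  invFun := dsh (-M)
  left_inv u := by rw [← dsh_add, neg_add_cancel, dsh_zero]
  right_inv u := by rw [← dsh_add, add_neg_cancel, dsh_zero]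

/-- The level of a vertex. -/
noncomputable def dlv : DV m → Finset (Ed r)
  | Sum.inl p => lvV p.1
  | Sum.inr _ => ⊥

theorem dadj (hr : 3 ≤ r) {n : ℕ} (hn : 2 ≤ n) {b b' : Lp r → ZMod 2} {x y : DV m}
    {M : Ed r → ZMod 2} (hM : Good n inc (b' - b) (dlv x ⊔ dlv y) M) :
    (dg (prt hr) m b).Adj x y ↔ (dg (prt hr) m b').Adj (dsh M x) (dsh M y) := by
  rcases x with ⟨x, i⟩ | v <;> rcases y with ⟨y, j⟩ | w
  · have h1 : (cfi (prt hr) b).Adj x y ↔ (cfi (prt hr) b').Adj (sh M x) (sh M y) :=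
      sh_adj hr hn hM
    have h2 : x = y ↔ sh M x = sh M y := (shV M).injective.eq_iff.symm
    show (((i : ℕ) = m x.1 ∧ (j : ℕ) = m y.1 ∧ (cfi (prt hr) b).Adj x y) ∨
      (x = y ∧ ((i : ℕ) + 1 = j ∨ (j : ℕ) + 1 = i))) ↔
      (((i : ℕ) = m x.1 ∧ (j : ℕ) = m y.1 ∧ (cfi (prt hr) b').Adj (sh M x) (sh M y)) ∨
      (sh M x = sh M y ∧ ((i : ℕ) + 1 = j ∨ (j : ℕ) + 1 = i)))
    rw [h1, h2]
  · exact Iff.rfl
  · exact Iff.rfl
  · exact Iff.rfl

/-- The family of the graphs. -/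
noncomputable def dFam (hr : 3 ≤ r) {n K : ℕ} (hn : 2 ≤ n) (hE : LE n K (inc (r := r)))
    (bb : Bool → Lp r → ZMod 2)
    (hinj : Function.Injective fun b => (cfi (prt hr) (bb b)).Adj) (m : Lp r → ℕ) :
    Fam (Ed r → ZMod 2) (Finset (Ed r)) (DV m) Bool :=
  let F := cFam hr hn hE bb hinj
  { N := F.N
    D := F.D
    Sol := F.Sol
    size := F.size
    K := F.K
    N_anti := F.N_anti
    N_sup := F.N_sup
    N_bot := F.N_bot
    Sol_anti := F.Sol_anti
    sol_D := F.sol_D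
    neg_mem := F.neg_mem
    add_mem := F.add_mem
    size_bot := F.size_bot
    size_mono := F.size_mono
    size_sup := F.size_sup
    bot_sol := F.bot_sol
    extend := F.extend
    act := dshV
    act_zero u := dsh_zero u
    act_add M M' u := dsh_add M M' u
    lv := dlv
    lv_act M u := by
      rcases u with ⟨x, i⟩ | v
      · rfl
      · rfl
    fix M u hM := by
      rcases u with ⟨x, i⟩ | v
      · have h := F.fix M x hM
        obtain ⟨v, β⟩ := x
        have h3 : (sh M (v, β)).2 = β := congrArg Prod.snd h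
        show (Sum.inl ⟨(v, (sh M (v, β)).2), i⟩ : DV m) = Sum.inl ⟨(v, β), i⟩
        rw [h3]
      · rfl
    faithful M u hM := by
      rcases u with ⟨x, i⟩ | v
      · refine F.faithful M x ?_
        have h1 : (Sum.inl ⟨sh M x, i⟩ : DV m) = Sum.inl ⟨x, i⟩ := hM
        exact congrArg Sigma.fst (Sum.inl.inj h1)
      · show M ∈ F.N ⊥
        rw [F.N_bot]
        exact AddSubgroup.mem_top _
    c := 2
    size_lv u := by
      rcases u with ⟨x, i⟩ | v
      · exact F.size_lv x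
      · show F.size ⊥ ≤ 2
        rw [F.size_bot]
        exact Nat.zero_le _
    G b := (dg (prt hr) m (bb b)).Adj
    G_inj := by
      intro b b' h
      refine hinj ?_
      funext x y
      have h1 := congrFun (congrFun h (core m x)) (core m y)
      simp only [core_adj] at h1
      exact h1
    adj b b' x y M hM := dadj hr hn hM }

/-- The main facts on the graphs. -/
theorem dg_main (k : ℕ) (hk : 1 ≤ k) : ∃ (r : ℕ) (_ : NeZero r) (hr : 3 ≤ r)
    (b b' : Lp r → ZMod 2), ∀ m : Lp r → ℕ,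
      IsEmpty (dg (prt hr) m b ≃g dg (prt hr) m b') ∧
      ∀ j ≤ k, WLEquivalent j (dg (prt hr) m b) (dg (prt hr) m b') ∧
        Indist 2 j (dg (prt hr) m b).Adj [] (dg (prt hr) m b').Adj [] := by
  obtain ⟨r, hrodd, hr1⟩ : ∃ r, r % 2 = 1 ∧ 2 * k + 7 ≤ r := ⟨2 * k + 7, by omega, le_rfl⟩
  have hr : 3 ≤ r := by omega
  have : NeZero r := ⟨by omega⟩
  have hnon : IsEmpty (cfi (prt hr) (tw false) ≃g cfi (prt hr) (tw true)) := by
    refine ⟨fun φ => ?_⟩
    have h1 := parity φ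
    have h2 : ∑ v : Lp r, tw false v = 0 := Finset.sum_eq_zero fun v _ => rfl
    rw [h2, sum_tw hrodd] at h1
    exact zero_ne_one h1
  have hinj : Function.Injective fun b => (cfi (prt hr) (tw b)).Adj := by
    intro b b' hbb
    have h1 : cfi (prt hr) (tw b) = cfi (prt hr) (tw b') := SimpleGraph.ext hbb
    cases b <;> cases b'
    · rfl
    · rw [← h1] at hnon
      exact (hnon.false (RelIso.refl _)).elim
    · rw [h1] at hnon
      exact (hnon.false (RelIso.refl _)).elim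
    · rfl
  have hn : 2 ≤ r * 3 ^ (r - 1) := by
    have : 1 ≤ 3 ^ (r - 1) := Nat.one_le_pow _ _ (by norm_num)
    calc 2 ≤ r * 1 := by omega
      _ ≤ _ := Nat.mul_le_mul_left _ this
  have hK : 8 * k ≤ 3 ^ (r - 4) := by
    have h1 : 3 ^ (2 * k) ≤ 3 ^ (r - 6) := Nat.pow_le_pow_right (by norm_num) (by omega)
    have h2 : 3 ^ (r - 4) = 9 * 3 ^ (r - 6) := by
      rw [show r - 4 = r - 6 + 2 by omega, pow_add]
      ring
    have h3 : k ≤ 3 ^ (2 * k) := by
      calc k ≤ 2 * k := by omega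
        _ ≤ 3 ^ (2 * k) := (Nat.lt_pow_self (by norm_num)).le
    omega
  have hch : ∀ (K : Type) [Field K], (2 : K) ≠ 0 →
      ((Fintype.card (Ed r → ZMod 2) : ℕ) : K) ≠ 0 := by
    intro K _ h3
    rw [Fintype.card_fun, ZMod.card, Nat.cast_pow]
    exact pow_ne_zero _ (by exact_mod_cast h3)
  refine ⟨r, this, hr, tw false, tw true, fun m => ⟨⟨fun φ => ?_⟩, fun j hj => ?_⟩⟩
  · have h1 := dg_parity φ
    have h2 : ∑ v : Lp r, tw false v = 0 := Finset.sum_eq_zero fun v _ => rfl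
    rw [h2, sum_tw hrodd] at h1
    exact zero_ne_one h1
  · let F := dFam hr hn (inc_LE (r := r) (by omega)) tw hinj m
    constructor
    · refine F.wl (fun b => dg (prt hr) m (tw b)) (fun _ => rfl) false true j ?_
      show 2 * (j + 1) ≤ 3 ^ (r - 4)
      omega
    · obtain ⟨M, hM⟩ := F.bot_sol false true
      refine F.indist (p := 2) (k := j) (s0 := 0) ?_ ?_ (v := []) (M := M) ?_ hM
      · exact_mod_cast hch
      · show 0 + 4 * (2 * j) ≤ 3 ^ (r - 4)
        omega
      · show F.size ⊥ ≤ 0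
        rw [F.size_bot]

end Pool.Agent.K4H86.SS
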