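import Pool.Agent.Y598.CG.Main

/-!
# Cai-Fürer-Immerman graphs with pendant paths
-/

set_option autoImplicit false
set_option linter.unusedSectionVars false

namespace Pool.Agent.K4H86.SS

open Finset Pool.Agent.Y598.VT

variable {U : Type} (P : Ports U) (m : U → ℕ)

/-- The vertices: for every vertex `x` of the Cai-Fürer-Immerman graph a path with `m x.1 + 1`
vertices (the last vertex of the path is `x` itself), and one more vertex for every node. -/
abbrev DV : Type := (Σ x : Cv U, Fin (m x.1 + 1)) ⊕ U

/-- The adjacency relation. -/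
def DAdj (b : U → ZMod 2) : DV m → DV m → Prop
  | Sum.inl p, Sum.inl q => ((p.2 : ℕ) = m p.1.1 ∧ (q.2 : ℕ) = m q.1.1 ∧ (cfi P b).Adj p.1 q.1) ∨
      (p.1 = q.1 ∧ ((p.2 : ℕ) + 1 = q.2 ∨ (q.2 : ℕ) + 1 = p.2))
  | Sum.inl p, Sum.inr v => (p.2 : ℕ) = m p.1.1 ∧ p.1.1 = v
  | Sum.inr v, Sum.inl p => (p.2 : ℕ) = m p.1.1 ∧ p.1.1 = v
  | Sum.inr _, Sum.inr _ => False

/-- The Cai-Fürer-Immerman graph with a pendant path at every vertex and a common neighbour of
the vertices of every fibre. -/
def dg (b : U → ZMod 2) : SimpleGraph (DV m) where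
  Adj := DAdj P m b
  symm := ⟨by
    rintro (⟨x, i⟩ | v) (⟨y, j⟩ | w) h
    · rcases h with ⟨h1, h2, h3⟩ | ⟨h1, h2⟩
      · exact Or.inl ⟨h2, h1, h3.symm⟩
      · exact Or.inr ⟨h1.symm, h2.symm⟩
    · exact h
    · exact h
    · exact h⟩
  loopless := ⟨by
    rintro (⟨x, i⟩ | v) h
    · rcases h with ⟨_, _, h3⟩ | ⟨_, h2⟩
      · exact (cfi P b).loopless.1 _ h3
      · simp only at h2
        omega
    · exact h⟩

/-- The vertices of the Cai-Fürer-Immerman graph. -/
def core (x : Cv U) : DV m := Sum.inl ⟨x, Fin.last _⟩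

theorem core_inj : Function.Injective (core (U := U) m) := by
  intro x y h
  have h1 := Sum.inl.inj h
  exact congrArg Sigma.fst h1

variable {P m}

theorem core_adj {b : U → ZMod 2} {x y : Cv U} :
    (dg P m b).Adj (core m x) (core m y) ↔ (cfi P b).Adj x y := by
  constructor
  · rintro (⟨_, _, h⟩ | ⟨h1, h2⟩)
    · exact h
    · have h3 : x = y := h1
      subst h3
      simp only at h2
      omega
  · intro h
    exact Or.inl ⟨rfl, rfl, h⟩

/-! ### Degrees -/

/-- The vertices of a fibre with a given value. -/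
def sol (a : ZMod 2) (l : Fin 3) (c t : ZMod 2) : ZMod 2 × ZMod 2 :=
  if l = 0 then (t, c + a + t) else if l = 1 then (c, t) else (t, c)

theorem val_sol (b : U → ZMod 2) (w : U) (l : Fin 3) (c t : ZMod 2) :
    val b (w, sol (b w) l c t) l = c := by
  have key : ∀ (a c t : ZMod 2) (l : Fin 3), (if l = 0 then a + (sol a l c t).1 + (sol a l c t).2
      else if l = 1 then (sol a l c t).1 else (sol a l c t).2) = c := by decide
  exact key (b w) c t l

theorem sol_inj (a : ZMod 2) (l : Fin 3) (c t t' : ZMod 2) (h : sol a l c t = sol a l c t') :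
    t = t' := by
  revert a l c t t' h
  decide

theorem exists_sol (b : U → ZMod 2) (w : U) (l : Fin 3) (c : ZMod 2) (β : ZMod 2 × ZMod 2)
    (h : val b (w, β) l = c) : ∃ t, β = sol (b w) l c t := by
  have key : ∀ (a c : ZMod 2) (l : Fin 3) (β : ZMod 2 × ZMod 2),
      (if l = 0 then a + β.1 + β.2 else if l = 1 then β.1 else β.2) = c →
        ∃ t, β = sol a l c t := by decide
  exact key (b w) c l β h

/-- Six neighbours. -/
def six (P : Ports U) (m : U → ℕ) (b : U → ZMod 2) (x : Cv U) (h : Fin 3 × ZMod 2) : DV m :=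
  core m (P.nb x.1 h.1, sol (b (P.nb x.1 h.1)) (P.rv h.1) (val b x h.1) h.2)

theorem six_adj (b : U → ZMod 2) (x : Cv U) (h : Fin 3 × ZMod 2) :
    (dg P m b).Adj (core m x) (six P m b x h) :=
  core_adj.2 ⟨h.1, rfl, (val_sol b _ _ _ _).symm⟩

theorem six_inj (b : U → ZMod 2) (x : Cv U) : Function.Injective (six P m b x) := by
  rintro ⟨j, t⟩ ⟨j', t'⟩ h
  have h1 := core_inj m h
  have h2 : P.nb x.1 j = P.nb x.1 j' := congrArg Prod.fst h1
  obtain rfl := P.nb_inj _ _ _ h2
  have h3 := congrArg Prod.snd h1
  have h4 : t = t' := sol_inj _ _ _ _ _ h3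
  rw [h4]

variable [Fintype U]

noncomputable instance : Fintype (DV (U := U) m) := inferInstance

theorem core_deg (b : U → ZMod 2) (x : Cv U) : 5 ≤ ((dg P m b).neighborSet (core m x)).ncard := by
  classical
  have h1 : Set.range (six P m b x) ⊆ (dg P m b).neighborSet (core m x) := by
    rintro _ ⟨h, rfl⟩
    exact six_adj b x h
  have h2 := Set.ncard_le_ncard h1 (Set.toFinite _)
  have h3 : (Set.range (six P m b x)).ncard = 6 := by
    rw [← Set.image_univ, Set.ncard_image_of_injective _ (six_inj b x), Set.ncard_univ,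
      Nat.card_eq_fintype_card]
    rfl
  omega

theorem inr_deg (b : U → ZMod 2) (v : U) :
    ((dg P m b).neighborSet (Sum.inr v)).ncard ≤ 4 := by
  classical
  have h1 : (dg P m b).neighborSet (Sum.inr v) ⊆
      Set.range fun β : ZMod 2 × ZMod 2 => core (U := U) m (v, β) := by
    rintro (⟨⟨w, β⟩, i⟩ | w) h
    · obtain ⟨h1, h2⟩ := h
      simp only at h1 h2
      subst h2
      have h3 : Fin.last (m w) = i := by
        refine Fin.ext ?_
        rw [Fin.val_last]
        exact h1.symm
      refine ⟨β, ?_⟩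
      show (Sum.inl ⟨(w, β), Fin.last (m w)⟩ : DV (U := U) m) = Sum.inl ⟨(w, β), i⟩
      rw [h3]
    · exact h.elim
  refine (Set.ncard_le_ncard h1 (Set.toFinite _)).trans ?_
  rw [← Set.image_univ]
  refine (Set.ncard_image_le (Set.toFinite _)).trans ?_
  rw [Set.ncard_univ, Nat.card_eq_fintype_card]
  exact le_of_eq rfl

theorem path_deg (b : U → ZMod 2) (x : Cv U) (i : Fin (m x.1 + 1)) (hi : (i : ℕ) ≠ m x.1) :
    ((dg P m b).neighborSet (Sum.inl ⟨x, i⟩)).ncard ≤ 4 := by
  classical
  have h1 : (dg P m b).neighborSet (Sum.inl ⟨x, i⟩) ⊆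
      Set.range fun c : Bool => (Sum.inl ⟨x, if c then Fin.ofNat _ (i + 1) else
        Fin.ofNat _ (i - 1)⟩ : DV (U := U) m) := by
    rintro (⟨y, j⟩ | w) h
    · rcases h with ⟨h1, _, _⟩ | ⟨h1, h2⟩
      · exact absurd h1 hi
      · simp only at h1 h2
        subst h1
        rcases h2 with h2 | h2
        · refine ⟨true, ?_⟩
          simp only [if_true]
          congr 2
          refine Fin.ext ?_
          rw [Fin.val_ofNat, h2, Nat.mod_eq_of_lt j.2]
        · refine ⟨false, ?_⟩
          simp only [Bool.false_eq_true, if_false]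
          congr 2
          refine Fin.ext ?_
          rw [Fin.val_ofNat]
          have h3 : (i : ℕ) - 1 = j := by omega
          rw [h3, Nat.mod_eq_of_lt j.2]
    · exact absurd h.1 hi
  refine (Set.ncard_le_ncard h1 (Set.toFinite _)).trans ?_
  rw [← Set.image_univ]
  refine (Set.ncard_image_le (Set.toFinite _)).trans ?_
  rw [Set.ncard_univ, Nat.card_eq_fintype_card]
  exact (le_of_eq (by rfl : Fintype.card Bool = 2)).trans (by norm_num)

theorem core_deg_le (b : U → ZMod 2) (x : Cv U) :
    ((dg P m b).neighborSet (core m x)).ncard ≤ 8 := by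
  classical
  have h1 : (dg P m b).neighborSet (core m x) ⊆
      Set.range (Sum.elim (six P m b x) fun c : Bool => if c then (Sum.inr x.1 : DV (U := U) m)
        else Sum.inl ⟨x, Fin.ofNat _ (m x.1 - 1)⟩) := by
    rintro (⟨⟨w, β⟩, j⟩ | w) h
    · rcases h with ⟨_, h2, l, h3, h4⟩ | ⟨h1, h2⟩
      · simp only at h2 h3 h4
        obtain ⟨t, ht⟩ := exists_sol b w (P.rv l) _ β h4.symm
        refine ⟨Sum.inl (l, t), ?_⟩
        subst h3
        simp only [Sum.elim_inl]
        unfold six core
        rw [← ht]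
        congr 2
        exact Fin.ext h2.symm
      · simp only at h1 h2
        subst h1
        rcases h2 with h2 | h2
        · exfalso
          have := j.2
          simp only [Fin.val_last] at h2 this
          omega
        · refine ⟨Sum.inr false, ?_⟩
          simp only [Sum.elim_inr, Bool.false_eq_true, if_false]
          congr 2
          refine Fin.ext ?_
          rw [Fin.val_ofNat]
          simp only [Fin.val_last] at h2
          have h3 : m w - 1 = j := by omega
          rw [h3, Nat.mod_eq_of_lt j.2]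
    · obtain ⟨_, h2⟩ := h
      refine ⟨Sum.inr true, ?_⟩
      simp only at h2
      simp [h2]
  refine (Set.ncard_le_ncard h1 (Set.toFinite _)).trans ?_
  rw [← Set.image_univ]
  refine (Set.ncard_image_le (Set.toFinite _)).trans ?_
  rw [Set.ncard_univ, Nat.card_eq_fintype_card]
  exact le_of_eq rfl

theorem deg_le (b : U → ZMod 2) (z : DV (U := U) m) : ((dg P m b).neighborSet z).ncard ≤ 8 := by
  rcases z with ⟨x, i⟩ | v
  · by_cases hi : (i : ℕ) = m x.1
    · have : (Sum.inl ⟨x, i⟩ : DV (U := U) m) = core m x := by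
        unfold core
        congr 2
        exact Fin.ext hi
      rw [this]
      exact core_deg_le b x
    · exact (path_deg b x i hi).trans (by norm_num)
  · exact (inr_deg b v).trans (by norm_num)

theorem core_iff (b : U → ZMod 2) (z : DV (U := U) m) :
    (∃ x, z = core m x) ↔ 5 ≤ ((dg P m b).neighborSet z).ncard := by
  constructor
  · rintro ⟨x, rfl⟩
    exact core_deg b x
  · intro h
    rcases z with ⟨x, i⟩ | v
    · by_cases hi : (i : ℕ) = m x.1
      · refine ⟨x, ?_⟩
        unfold core
        congr 2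
        exact Fin.ext hi
      · have := path_deg (P := P) b x i hi
        omega
    · have := inr_deg (P := P) (m := m) b v
      omega

theorem ncard_nbhd {V W : Type} [Finite V] {G : SimpleGraph V} {H : SimpleGraph W} (φ : G ≃g H)
    (v : V) : (H.neighborSet (φ v)).ncard = (G.neighborSet v).ncard := by
  have h : H.neighborSet (φ v) = φ '' G.neighborSet v := by
    ext w
    constructor
    · intro h
      refine ⟨φ.symm w, ?_, φ.apply_symm_apply w⟩
      show G.Adj v (φ.symm w)
      rw [← φ.map_adj_iff, φ.apply_symm_apply]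
      exact h
    · rintro ⟨u, hu, rfl⟩
      exact φ.map_adj_iff.2 hu
  rw [h, Set.ncard_image_of_injective _ φ.injective]

/-- Isomorphic graphs have twists of the same parity. -/
theorem dg_parity {b b' : U → ZMod 2} (φ : dg P m b ≃g dg P m b') : ∑ v, b v = ∑ v, b' v := by
  have h1 : ∀ x : Cv U, ∃ y : Cv U, φ (core m x) = core m y := by
    intro x
    rw [core_iff b', ncard_nbhd φ]
    exact core_deg b x
  choose f hf using h1
  have hinj : Function.Injective f := by
    intro x y h
    have h2 : φ (core m x) = φ (core m y) := by rw [hf, hf, h]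
    exact core_inj m (φ.injective h2)
  have hbij : Function.Bijective f := Finite.injective_iff_bijective.1 hinj
  exact parity (P := P) ⟨Equiv.ofBijective f hbij, by
    intro x y
    show (cfi P b').Adj (f x) (f y) ↔ (cfi P b).Adj x y
    rw [← core_adj (m := m), ← hf, ← hf, φ.map_adj_iff, core_adj]⟩

end Pool.Agent.K4H86.SS
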