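import Pool.Agent.K4H86.SS.Step
import Pool.Agent.K4H86.SS.Graph

/-!
# The eigenvectors of the graphs with pendant paths
-/

set_option autoImplicit false
set_option linter.unusedSectionVars false

namespace Pool.Agent.K4H86.SS

open Finset Pool.Agent.Y598.VT

open Classical in
/-- Every eigenvalue of the adjacency matrix of the graph has multiplicity one: the eigenspaces
have dimension at most one. -/
def SimpleSpectrum {V : Type} [Fintype V] (G : SimpleGraph V) : Prop :=
  ∀ μ : ℝ, Module.finrank ℝ (Module.End.eigenspace (Matrix.toLin' (G.adjMatrix ℝ)) μ) ≤ 1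

open Classical in
/-- The sum over the neighbours. -/
noncomputable def asum {V : Type} [Fintype V] (G : SimpleGraph V) (f : V → ℝ) (z : V) : ℝ :=
  ∑ w, if G.Adj z w then f w else 0

open Classical in
theorem mem_eig {V : Type} [Fintype V] (G : SimpleGraph V) (f : V → ℝ) (μ : ℝ) :
    f ∈ Module.End.eigenspace (Matrix.toLin' (G.adjMatrix ℝ)) μ ↔ ∀ z, asum G f z = μ * f z := by
  rw [Module.End.mem_eigenspace_iff, funext_iff]
  refine forall_congr' fun z => ?_
  have h : Matrix.toLin' (G.adjMatrix ℝ) f z = asum G f z := by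
    rw [Matrix.toLin'_apply]
    unfold Matrix.mulVec dotProduct asum
    refine Finset.sum_congr rfl fun w _ => ?_
    show G.adjMatrix ℝ z w * f w = _
    rw [SimpleGraph.adjMatrix_apply]
    split_ifs <;> simp
  rw [h]
  rfl

/-- It is enough that two eigenvectors are proportional. -/
theorem simple_of {V : Type} [Fintype V] (G : SimpleGraph V)
    (h : ∀ (μ : ℝ) (f g : V → ℝ), f ≠ 0 → (∀ z, asum G f z = μ * f z) →
      (∀ z, asum G g z = μ * g z) → ∃ c : ℝ, g = c • f) : SimpleSpectrum G := by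
  intro μ
  by_cases hb : ∃ f : Module.End.eigenspace (Matrix.toLin' (G.adjMatrix ℝ)) μ, f ≠ 0
  · obtain ⟨f, hf⟩ := hb
    refine finrank_le_one f fun g => ?_
    obtain ⟨c, hc⟩ := h μ f.1 g.1 (fun h0 => hf (Subtype.ext h0)) ((mem_eig G _ _).1 f.2)
      ((mem_eig G _ _).1 g.2)
    exact ⟨c, Subtype.ext hc.symm⟩
  · push Not at hb
    refine finrank_le_one 0 fun g => ⟨0, ?_⟩
    rw [smul_zero, hb g]

variable {U : Type} [Fintype U] [DecidableEq U] {P : Ports U} {m : U → ℕ}

/-! ### Sums over paths -/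

theorem sum_succ {M : ℕ} (i : ℕ) (h : Fin (M + 1) → ℝ) :
    (∑ j : Fin (M + 1), if i + 1 = (j : ℕ) then h j else 0) =
      if hl : i + 1 < M + 1 then h ⟨i + 1, hl⟩ else 0 := by
  by_cases hl : i + 1 < M + 1
  · rw [dif_pos hl, Finset.sum_eq_single ⟨i + 1, hl⟩]
    · rw [if_pos rfl]
    · intro j _ hj
      rw [if_neg fun e => hj (Fin.ext e.symm)]
    · intro h1
      exact absurd (Finset.mem_univ _) h1
  · rw [dif_neg hl]
    refine Finset.sum_eq_zero fun j _ => ?_
    rw [if_neg]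
    have := j.2
    omega

theorem sum_pred {M : ℕ} (i : ℕ) (hi : i < M + 1) (h : Fin (M + 1) → ℝ) :
    (∑ j : Fin (M + 1), if (j : ℕ) + 1 = i then h j else 0) =
      if i = 0 then 0 else h ⟨i - 1, by omega⟩ := by
  by_cases hl : i = 0
  · rw [if_pos hl]
    refine Finset.sum_eq_zero fun j _ => ?_
    rw [if_neg]
    omega
  · rw [if_neg hl, Finset.sum_eq_single ⟨i - 1, by omega⟩]
    · rw [if_pos]
      simp only
      omega
    · intro j _ hj
      rw [if_neg fun e => hj (Fin.ext ?_)]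
      simp only
      omega
    · intro h1
      exact absurd (Finset.mem_univ _) h1

theorem sum_last {M : ℕ} (h : Fin (M + 1) → ℝ) :
    (∑ j : Fin (M + 1), if (j : ℕ) = M then h j else 0) = h (Fin.last M) := by
  rw [Finset.sum_eq_single (Fin.last M)]
  · rw [if_pos]
    rfl
  · intro j _ hj
    rw [if_neg fun e : (j : ℕ) = M => hj (Fin.ext e)]
  · intro h1
    exact absurd (Finset.mem_univ _) h1

/-- The values on a path. -/
noncomputable def pv (f : DV m → ℝ) (x : Cv U) (i : ℕ) : ℝ :=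
  if hl : i < m x.1 + 1 then f (Sum.inl ⟨x, ⟨i, hl⟩⟩) else 0

theorem asum_inl (b : U → ZMod 2) (f : DV m → ℝ) (x : Cv U) (i : Fin (m x.1 + 1)) :
    asum (dg P m b) f (Sum.inl ⟨x, i⟩) =
      (if (i : ℕ) = m x.1 then asum (cfi P b) (fun y => f (core m y)) x + f (Sum.inr x.1) else 0) +
      pv f x (i + 1) + (if (i : ℕ) = 0 then 0 else pv f x (i - 1)) := by
  classical
  unfold asum
  rw [Fintype.sum_sum_type, Fintype.sum_sigma]
  have h1 : ∀ (y : Cv U) (j : Fin (m y.1 + 1)),
      (if (dg P m b).Adj (Sum.inl ⟨x, i⟩) (Sum.inl ⟨y, j⟩) then f (Sum.inl ⟨y, j⟩) else 0) =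
      (if (i : ℕ) = m x.1 then (if (j : ℕ) = m y.1 then
        (if (cfi P b).Adj x y then f (Sum.inl ⟨y, j⟩) else 0) else 0) else 0) +
      ((if x = y then (if (i : ℕ) + 1 = j then f (Sum.inl ⟨y, j⟩) else 0) else 0) +
      (if x = y then (if (j : ℕ) + 1 = i then f (Sum.inl ⟨y, j⟩) else 0) else 0)) := by
    intro y j
    have hadj : (dg P m b).Adj (Sum.inl ⟨x, i⟩) (Sum.inl ⟨y, j⟩) ↔
      (((i : ℕ) = m x.1 ∧ (j : ℕ) = m y.1 ∧ (cfi P b).Adj x y) ∨
        (x = y ∧ ((i : ℕ) + 1 = j ∨ (j : ℕ) + 1 = i))) := Iff.rfl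
    by_cases hxy : x = y
    · subst hxy
      have h2 : ¬ (cfi P b).Adj x x := (cfi P b).loopless.1 _
      have h3 : (dg P m b).Adj (Sum.inl ⟨x, i⟩) (Sum.inl ⟨x, j⟩) ↔
          ((i : ℕ) + 1 = j ∨ (j : ℕ) + 1 = i) := by
        rw [hadj]
        constructor
        · rintro (⟨_, _, h⟩ | ⟨_, h⟩)
          · exact absurd h h2
          · exact h
        · intro h
          exact Or.inr ⟨rfl, h⟩
      simp only [h3, h2, if_false, ite_self, zero_add, if_true]
      by_cases e1 : (i : ℕ) + 1 = j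
      · have e2 : ¬ (j : ℕ) + 1 = i := by omega
        rw [if_pos (Or.inl e1), if_pos e1, if_neg e2, add_zero]
      · by_cases e2 : (j : ℕ) + 1 = i
        · rw [if_pos (Or.inr e2), if_neg e1, if_pos e2, zero_add]
        · rw [if_neg (by tauto), if_neg e1, if_neg e2, zero_add]
    · simp only [hxy, if_false, add_zero]
      have h3 : (dg P m b).Adj (Sum.inl ⟨x, i⟩) (Sum.inl ⟨y, j⟩) ↔
          ((i : ℕ) = m x.1 ∧ (j : ℕ) = m y.1 ∧ (cfi P b).Adj x y) := by
        rw [hadj]
        constructor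
        · rintro (h | ⟨h, _⟩)
          · exact h
          · exact absurd h hxy
        · intro h
          exact Or.inl h
      rw [if_congr h3 rfl rfl, ite_and, ite_and]
  have h2 : ∀ v : U, (if (dg P m b).Adj (Sum.inl ⟨x, i⟩) (Sum.inr v) then
      f (Sum.inr v) else 0) = if x.1 = v then (if (i : ℕ) = m x.1 then f (Sum.inr v) else 0)
        else 0 := by
    intro v
    have hadj : (dg P m b).Adj (Sum.inl ⟨x, i⟩) (Sum.inr v) ↔
        ((i : ℕ) = m x.1 ∧ x.1 = v) := Iff.rfl
    rw [if_congr (hadj.trans and_comm) rfl rfl, ite_and]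
  simp only [h1, h2, Finset.sum_add_distrib]
  rw [Finset.sum_ite_eq, if_pos (Finset.mem_univ _)]
  have h3 : ∀ y : Cv U, (∑ j : Fin (m y.1 + 1), if (i : ℕ) = m x.1 then (if (j : ℕ) = m y.1 then
        (if (cfi P b).Adj x y then f (Sum.inl ⟨y, j⟩) else 0) else 0) else 0) =
      if (i : ℕ) = m x.1 then (if (cfi P b).Adj x y then f (core m y) else 0) else 0 := by
    intro y
    by_cases hi : (i : ℕ) = m x.1
    · simp only [if_pos hi]
      exact sum_last fun j => if (cfi P b).Adj x y then f (Sum.inl ⟨y, j⟩) else 0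
    · simp only [if_neg hi, Finset.sum_const_zero]
  have h4 : (∑ y : Cv U, ∑ j : Fin (m y.1 + 1), if x = y then
      (if (i : ℕ) + 1 = j then f (Sum.inl ⟨y, j⟩) else 0) else 0) = pv f x (i + 1) := by
    rw [Finset.sum_eq_single x]
    · simp only [if_true]
      exact sum_succ i fun j => f (Sum.inl ⟨x, j⟩)
    · intro y _ hy
      refine Finset.sum_eq_zero fun j _ => ?_
      rw [if_neg (Ne.symm hy)]
    · intro h
      exact absurd (Finset.mem_univ _) h
  have h5 : (∑ y : Cv U, ∑ j : Fin (m y.1 + 1), if x = y then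
      (if (j : ℕ) + 1 = i then f (Sum.inl ⟨y, j⟩) else 0) else 0) =
      if (i : ℕ) = 0 then 0 else pv f x (i - 1) := by
    rw [Finset.sum_eq_single x]
    · simp only [if_true]
      rw [sum_pred i i.2 fun j => f (Sum.inl ⟨x, j⟩)]
      refine if_congr Iff.rfl rfl ?_
      unfold pv
      rw [dif_pos]
    · intro y _ hy
      refine Finset.sum_eq_zero fun j _ => ?_
      rw [if_neg (Ne.symm hy)]
    · intro h
      exact absurd (Finset.mem_univ _) h
  rw [h4, h5, Finset.sum_congr rfl fun y _ => h3 y]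
  by_cases hi : (i : ℕ) = m x.1
  · simp only [if_pos hi]
    ring
  · simp only [if_neg hi, Finset.sum_const_zero]
    ring

theorem asum_inr (b : U → ZMod 2) (f : DV m → ℝ) (v : U) :
    asum (dg P m b) f (Sum.inr v) = ∑ β, f (core m (v, β)) := by
  classical
  unfold asum
  rw [Fintype.sum_sum_type, Fintype.sum_sigma]
  have h1 : ∀ (y : Cv U) (j : Fin (m y.1 + 1)),
      (if (dg P m b).Adj (Sum.inr v) (Sum.inl ⟨y, j⟩) then f (Sum.inl ⟨y, j⟩) else 0) =
      if (j : ℕ) = m y.1 then (if y.1 = v then f (Sum.inl ⟨y, j⟩) else 0) else 0 := by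
    intro y j
    have hadj : (dg P m b).Adj (Sum.inr v) (Sum.inl ⟨y, j⟩) ↔
      ((j : ℕ) = m y.1 ∧ y.1 = v) := Iff.rfl
    rw [if_congr hadj rfl rfl, ite_and]
  have h2 : ∀ w : U, (if (dg P m b).Adj (Sum.inr v) (Sum.inr w) then
      f (Sum.inr w) else 0) = 0 := by
    intro w
    have hadj : ¬ (dg P m b).Adj (Sum.inr v) (Sum.inr w) := fun h => h
    rw [if_neg hadj]
  simp only [h1, h2, Finset.sum_const_zero, add_zero]
  have h3 : ∀ y : Cv U, (∑ j : Fin (m y.1 + 1), if (j : ℕ) = m y.1 then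
      (if y.1 = v then f (Sum.inl ⟨y, j⟩) else 0) else 0) =
      if y.1 = v then f (core m y) else 0 := fun y =>
    sum_last fun j => if y.1 = v then f (Sum.inl ⟨y, j⟩) else 0
  rw [Finset.sum_congr rfl fun y _ => h3 y, Fintype.sum_prod_type, Finset.sum_eq_single v]
  · simp
  · intro w _ hw
    refine Finset.sum_eq_zero fun β _ => ?_
    rw [if_neg hw]
  · intro h
    exact absurd (Finset.mem_univ _) h

/-- The values on the paths. -/
theorem pv_eq {b : U → ZMod 2} {f : DV m → ℝ} {l : ℝ}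
    (hf : ∀ z, asum (dg P m b) f z = l * f z) (x : Cv U) :
    ∀ i : ℕ, i ≤ m x.1 → pv f x i = D l i * pv f x 0 := by
  intro i
  induction i using Nat.strong_induction_on with
  | _ n ih =>
    intro hn
    match n with
    | 0 => simp
    | 1 =>
      have h1 := hf (Sum.inl ⟨x, ⟨0, by omega⟩⟩)
      rw [asum_inl, if_neg (by simp only; omega)] at h1
      simp only [zero_add, if_true, add_zero] at h1
      rw [h1, D_one]
      unfold pv
      rw [dif_pos (by omega)]
    | n + 2 =>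
      have h1 := hf (Sum.inl ⟨x, ⟨n + 1, by omega⟩⟩)
      rw [asum_inl, if_neg (by simp only; omega), if_neg (by simp only; omega)] at h1
      simp only [zero_add, Nat.add_sub_cancel] at h1
      have h2 : f (Sum.inl ⟨x, ⟨n + 1, by omega⟩⟩) = pv f x (n + 1) := by
        unfold pv
        rw [dif_pos]
      rw [h2, ih n (by omega) (by omega), ih (n + 1) (by omega) (by omega)] at h1
      have e : n + 2 = n + 1 + 1 := rfl
      rw [e, ← e, D_add_two]
      linear_combination h1

theorem core_eq {b : U → ZMod 2} {f : DV m → ℝ} {l : ℝ}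
    (hf : ∀ z, asum (dg P m b) f z = l * f z) (x : Cv U) :
    f (core m x) = D l (m x.1) * pv f x 0 := by
  rw [← pv_eq hf x (m x.1) le_rfl]
  unfold pv
  rw [dif_pos (by omega)]
  rfl

/-- The equation at the vertices of the Cai-Fürer-Immerman graph. -/
theorem eq_core (hm : ∀ u, 0 < m u) {b : U → ZMod 2} {f : DV m → ℝ} {l : ℝ}
    (hf : ∀ z, asum (dg P m b) f z = l * f z) (x : Cv U) :
    D l (m x.1 + 1) * pv f x 0 = asum (cfi P b) (fun y => D l (m y.1) * pv f y 0) x +
      f (Sum.inr x.1) := by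
  have h1 := hf (core m x)
  have h2 : core m x = Sum.inl ⟨x, Fin.last (m x.1)⟩ := rfl
  have hpos := hm x.1
  rw [core_eq hf x] at h1
  rw [h2, asum_inl, if_pos (Fin.val_last _), if_neg (by rw [Fin.val_last]; omega)] at h1
  have h3 : pv f x ((Fin.last (m x.1) : ℕ) + 1) = 0 := by
    unfold pv
    rw [dif_neg]
    simp
  rw [h3, Fin.val_last, pv_eq hf x (m x.1 - 1) (by omega)] at h1
  have h4 : (fun y => f (core m y)) = fun y => D l (m y.1) * pv f y 0 :=
    funext fun y => core_eq hf y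
  rw [h4] at h1
  obtain ⟨n, hn⟩ : ∃ n, m x.1 = n + 1 := ⟨m x.1 - 1, by omega⟩
  rw [hn] at h1 ⊢
  have h5 : n + 1 - 1 = n := rfl
  rw [h5] at h1
  have e : n + 1 + 1 = n + 2 := rfl
  rw [e, D_add_two]
  linear_combination -h1

theorem eq_inr {b : U → ZMod 2} {f : DV m → ℝ} {l : ℝ}
    (hf : ∀ z, asum (dg P m b) f z = l * f z) (v : U) :
    l * f (Sum.inr v) = D l (m v) * ∑ β, pv f (v, β) 0 := by
  rw [← hf, asum_inr, Finset.mul_sum]
  exact Finset.sum_congr rfl fun β _ => core_eq hf (v, β)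

/-! ### The Cai-Fürer-Immerman graph -/

theorem asum_cfi (b : U → ZMod 2) (h : Cv U → ℝ) (x : Cv U) :
    asum (cfi P b) h x = ∑ j, ∑ γ : ZMod 2 × ZMod 2,
      if val b x j = val b (P.nb x.1 j, γ) (P.rv j) then h (P.nb x.1 j, γ) else 0 := by
  classical
  unfold asum
  rw [Fintype.sum_prod_type]
  have h1 : ∀ (w : U) (γ : ZMod 2 × ZMod 2), (if (cfi P b).Adj x (w, γ) then h (w, γ) else 0) =
      ∑ j, if P.nb x.1 j = w then
        (if val b x j = val b (P.nb x.1 j, γ) (P.rv j) then h (P.nb x.1 j, γ) else 0) else 0 := by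
    intro w γ
    by_cases hw : ∃ j, P.nb x.1 j = w
    · obtain ⟨j, rfl⟩ := hw
      rw [Finset.sum_eq_single j]
      · rw [if_pos rfl]
        exact if_congr (adj_iff P rfl) rfl rfl
      · intro l _ hl
        rw [if_neg fun e => hl (P.nb_inj _ _ _ e)]
      · intro h2
        exact absurd (Finset.mem_univ _) h2
    · rw [if_neg, Finset.sum_eq_zero]
      · intro j _
        rw [if_neg fun e => hw ⟨j, e⟩]
      · rintro ⟨j, h2, _⟩
        exact hw ⟨j, h2⟩
  simp only [h1]
  have h2 : ∀ w : U, (∑ γ : ZMod 2 × ZMod 2, ∑ j, if P.nb x.1 j = w then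
      (if val b x j = val b (P.nb x.1 j, γ) (P.rv j) then h (P.nb x.1 j, γ) else 0) else 0) =
      ∑ j, if P.nb x.1 j = w then ∑ γ : ZMod 2 × ZMod 2,
        (if val b x j = val b (P.nb x.1 j, γ) (P.rv j) then h (P.nb x.1 j, γ) else 0) else 0 := by
    intro w
    rw [Finset.sum_comm]
    refine Finset.sum_congr rfl fun j _ => ?_
    by_cases hj : P.nb x.1 j = w
    · simp only [if_pos hj]
    · simp only [if_neg hj, Finset.sum_const_zero]
  rw [Finset.sum_congr rfl fun w _ => h2 w, Finset.sum_comm]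
  refine Finset.sum_congr rfl fun j _ => ?_
  rw [Finset.sum_ite_eq, if_pos (Finset.mem_univ _)]

/-- The sign. -/
def sg (c : ZMod 2) : ℤ := if c = 0 then 1 else -1

/-- The values of the elements of a fibre. -/
def vv (a : ZMod 2) (β : ZMod 2 × ZMod 2) (j : Fin 3) : ZMod 2 :=
  if j = 0 then a + β.1 + β.2 else if j = 1 then β.1 else β.2

theorem val_eq (b : U → ZMod 2) (v : U) (β : ZMod 2 × ZMod 2) (j : Fin 3) :
    val b (v, β) j = vv (b v) β j := rfl

theorem fact1 : ∀ (a c : ZMod 2) (j : Fin 3),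
    (∑ β : ZMod 2 × ZMod 2, if vv a β j = c then (1 : ℤ) else 0) = 2 := by decide

theorem fact2 : ∀ (a c : ZMod 2) (j l : Fin 3),
    (∑ β : ZMod 2 × ZMod 2, if vv a β j = c then sg (vv a β l) else 0) =
      if j = l then 2 * sg c else 0 := by decide

theorem fact3 : ∀ (a : ZMod 2) (l : Fin 3), (∑ β : ZMod 2 × ZMod 2, sg (vv a β l)) = 0 := by decide

theorem fact4 : ∀ (a : ZMod 2) (β γ : ZMod 2 × ZMod 2),
    1 + (∑ l, sg (vv a β l) * sg (vv a γ l)) = if β = γ then 4 else 0 := by decide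

/-- The sum over a fibre. -/
noncomputable def fs (f : DV m → ℝ) (v : U) : ℝ := ∑ β, pv f (v, β) 0

/-- The coefficients of the other characters. -/
noncomputable def fr (b : U → ZMod 2) (f : DV m → ℝ) (v : U) (l : Fin 3) : ℝ :=
  ∑ β, (sg (vv (b v) β l) : ℝ) * pv f (v, β) 0

theorem recon (b : U → ZMod 2) (f : DV m → ℝ) (v : U) (β : ZMod 2 × ZMod 2) :
    4 * pv f (v, β) 0 = fs f v + ∑ l, (sg (vv (b v) β l) : ℝ) * fr b f v l := by
  unfold fs fr
  have h1 : ∑ l, (sg (vv (b v) β l) : ℝ) * ∑ γ, (sg (vv (b v) γ l) : ℝ) * pv f (v, γ) 0 =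
      ∑ γ, ((∑ l, sg (vv (b v) β l) * sg (vv (b v) γ l) : ℤ) : ℝ) * pv f (v, γ) 0 := by
    simp only [Finset.mul_sum, Int.cast_sum, Int.cast_mul, Finset.sum_mul]
    rw [Finset.sum_comm]
    refine Finset.sum_congr rfl fun γ _ => Finset.sum_congr rfl fun l _ => ?_
    ring
  rw [h1, ← Finset.sum_add_distrib]
  have h2 : ∀ γ : ZMod 2 × ZMod 2, pv f (v, γ) 0 +
      ((∑ l, sg (vv (b v) β l) * sg (vv (b v) γ l) : ℤ) : ℝ) * pv f (v, γ) 0 =
      if β = γ then 4 * pv f (v, γ) 0 else 0 := by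
    intro γ
    have h3 := congrArg (fun z : ℤ => (z : ℝ)) (fact4 (b v) β γ)
    simp only [Int.cast_add, Int.cast_one, Int.cast_ite, Int.cast_ofNat, Int.cast_zero] at h3
    calc pv f (v, γ) 0 + ((∑ l, sg (vv (b v) β l) * sg (vv (b v) γ l) : ℤ) : ℝ) * pv f (v, γ) 0
        = (1 + ((∑ l, sg (vv (b v) β l) * sg (vv (b v) γ l) : ℤ) : ℝ)) * pv f (v, γ) 0 := by ring
      _ = _ := by
        rw [h3]
        split_ifs <;> ring
  rw [Finset.sum_congr rfl fun γ _ => h2 γ, Finset.sum_ite_eq, if_pos (Finset.mem_univ _)]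

/-- The equation for the sums over the fibres. -/
theorem eq_fs (hm : ∀ u, 0 < m u) {b : U → ZMod 2} {f : DV m → ℝ} {l : ℝ}
    (hf : ∀ z, asum (dg P m b) f z = l * f z) (v : U) :
    D l (m v + 1) * fs f v = 4 * f (Sum.inr v) + 2 * nbs P (fun w => D l (m w) * fs f w) v := by
  have h1 : ∑ β, D l (m v + 1) * pv f (v, β) 0 = ∑ β : ZMod 2 × ZMod 2,
      (asum (cfi P b) (fun y => D l (m y.1) * pv f y 0) (v, β) + f (Sum.inr v)) :=
    Finset.sum_congr rfl fun β _ => eq_core hm hf (v, β)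
  rw [← Finset.mul_sum, Finset.sum_add_distrib] at h1
  have h2 : (∑ _β : ZMod 2 × ZMod 2, f (Sum.inr v)) = 4 * f (Sum.inr v) := by
    rw [Finset.sum_const, Finset.card_univ]
    have : Fintype.card (ZMod 2 × ZMod 2) = 4 := rfl
    rw [this]
    simp
  have h3 : (∑ β : ZMod 2 × ZMod 2, asum (cfi P b) (fun y => D l (m y.1) * pv f y 0) (v, β)) =
      2 * nbs P (fun w => D l (m w) * fs f w) v := by
    simp only [asum_cfi]
    rw [Finset.sum_comm]
    unfold nbs fs
    rw [Finset.mul_sum]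
    refine Finset.sum_congr rfl fun j _ => ?_
    show _ = 2 * (D l (m (P.nb v j)) * ∑ β, pv f (P.nb v j, β) 0)
    rw [Finset.sum_comm, Finset.mul_sum, Finset.mul_sum]
    refine Finset.sum_congr rfl fun γ _ => ?_
    have h4 := congrArg (fun z : ℤ => (z : ℝ)) (fact1 (b v) (vv (b (P.nb v j)) γ (P.rv j)) j)
    simp only [Int.cast_sum, Int.cast_ite, Int.cast_one, Int.cast_zero, Int.cast_ofNat] at h4
    have h5 : ∀ β : ZMod 2 × ZMod 2, (if val b (v, β) j = val b (P.nb v j, γ) (P.rv j) then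
        D l (m (P.nb v j)) * pv f (P.nb v j, γ) 0 else 0) =
        (if vv (b v) β j = vv (b (P.nb v j)) γ (P.rv j) then 1 else 0) *
          (D l (m (P.nb v j)) * pv f (P.nb v j, γ) 0) := by
      intro β
      simp only [val_eq]
      split_ifs <;> ring
    rw [Finset.sum_congr rfl fun β _ => h5 β, ← Finset.sum_mul, h4]
  rw [h2, h3] at h1
  unfold fs at h1 ⊢
  rw [h1]
  ring

/-- The equation for the other characters. -/
theorem eq_fr (hm : ∀ u, 0 < m u) {b : U → ZMod 2} {f : DV m → ℝ} {l : ℝ}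
    (hf : ∀ z, asum (dg P m b) f z = l * f z) (v : U) (i : Fin 3) :
    D l (m v + 1) * fr b f v i =
      2 * (D l (m (P.nb v i)) * fr b f (P.nb v i) (P.rv i)) := by
  have h1 : ∑ β, (sg (vv (b v) β i) : ℝ) * (D l (m v + 1) * pv f (v, β) 0) =
      ∑ β : ZMod 2 × ZMod 2, (sg (vv (b v) β i) : ℝ) *
      (asum (cfi P b) (fun y => D l (m y.1) * pv f y 0) (v, β) + f (Sum.inr v)) :=
    Finset.sum_congr rfl fun β _ => by rw [eq_core hm hf (v, β)]
  have h0 : ∑ β, (sg (vv (b v) β i) : ℝ) * (D l (m v + 1) * pv f (v, β) 0) =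
      D l (m v + 1) * fr b f v i := by
    unfold fr
    rw [Finset.mul_sum]
    exact Finset.sum_congr rfl fun β _ => by ring
  rw [h0] at h1
  simp only [mul_add, Finset.sum_add_distrib] at h1
  have h2 : (∑ β : ZMod 2 × ZMod 2, (sg (vv (b v) β i) : ℝ) * f (Sum.inr v)) = 0 := by
    rw [← Finset.sum_mul]
    have h4 := congrArg (fun z : ℤ => (z : ℝ)) (fact3 (b v) i)
    simp only [Int.cast_sum, Int.cast_zero] at h4
    rw [h4, zero_mul]
  have h3 : (∑ β : ZMod 2 × ZMod 2, (sg (vv (b v) β i) : ℝ) *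
      asum (cfi P b) (fun y => D l (m y.1) * pv f y 0) (v, β)) =
      2 * (D l (m (P.nb v i)) * fr b f (P.nb v i) (P.rv i)) := by
    simp only [asum_cfi, Finset.mul_sum]
    rw [Finset.sum_comm]
    have h5 : ∀ j : Fin 3, (∑ β : ZMod 2 × ZMod 2, ∑ γ : ZMod 2 × ZMod 2,
        (sg (vv (b v) β i) : ℝ) * (if val b (v, β) j = val b (P.nb v j, γ) (P.rv j) then
          D l (m (P.nb v j)) * pv f (P.nb v j, γ) 0 else 0)) =
        if j = i then 2 * (D l (m (P.nb v j)) * fr b f (P.nb v j) (P.rv j)) else 0 := by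
      intro j
      rw [Finset.sum_comm]
      have h6 : ∀ γ : ZMod 2 × ZMod 2, (∑ β : ZMod 2 × ZMod 2, (sg (vv (b v) β i) : ℝ) *
          (if val b (v, β) j = val b (P.nb v j, γ) (P.rv j) then
            D l (m (P.nb v j)) * pv f (P.nb v j, γ) 0 else 0)) =
          (if j = i then 2 * (sg (vv (b (P.nb v j)) γ (P.rv j)) : ℝ) else 0) *
            (D l (m (P.nb v j)) * pv f (P.nb v j, γ) 0) := by
        intro γ
        have h4 := congrArg (fun z : ℤ => (z : ℝ))
          (fact2 (b v) (vv (b (P.nb v j)) γ (P.rv j)) j i)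
        simp only [Int.cast_sum, Int.cast_ite, Int.cast_mul, Int.cast_zero, Int.cast_ofNat] at h4
        rw [← h4, Finset.sum_mul]
        refine Finset.sum_congr rfl fun β _ => ?_
        simp only [val_eq]
        split_ifs <;> ring
      rw [Finset.sum_congr rfl fun γ _ => h6 γ]
      by_cases hj : j = i
      · simp only [if_pos hj]
        unfold fr
        rw [Finset.mul_sum, Finset.mul_sum]
        exact Finset.sum_congr rfl fun γ _ => by ring
      · simp only [if_neg hj, zero_mul, Finset.sum_const_zero]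
    have h7 : (∑ j : Fin 3, ∑ β : ZMod 2 × ZMod 2, ∑ γ : ZMod 2 × ZMod 2,
        (sg (vv (b v) β i) : ℝ) * (if val b (v, β) j = val b (P.nb v j, γ) (P.rv j) then
          D l (m (P.nb v j)) * pv f (P.nb v j, γ) 0 else 0)) =
        2 * (D l (m (P.nb v i)) * fr b f (P.nb v i) (P.rv i)) := by
      rw [Finset.sum_congr rfl fun j _ => h5 j, Finset.sum_ite_eq', if_pos (Finset.mem_univ _)]
    exact h7
  rw [h2, h3, add_zero] at h1
  exact h1

theorem pv_sub (f g : DV m → ℝ) (c : ℝ) (x : Cv U) (i : ℕ) :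
    pv (g - c • f) x i = pv g x i - c * pv f x i := by
  unfold pv
  split_ifs
  · rfl
  · ring

theorem fs_sub (f g : DV m → ℝ) (c : ℝ) (v : U) : fs (g - c • f) v = fs g v - c * fs f v := by
  unfold fs
  simp only [pv_sub, Finset.sum_sub_distrib, Finset.mul_sum]

theorem fr_sub (b : U → ZMod 2) (f g : DV m → ℝ) (c : ℝ) (v : U) (i : Fin 3) :
    fr b (g - c • f) v i = fr b g v i - c * fr b f v i := by
  unfold fr
  simp only [pv_sub, Finset.mul_sum]
  rw [← Finset.sum_sub_distrib]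
  exact Finset.sum_congr rfl fun β _ => by ring

theorem asum_sub {V : Type} [Fintype V] (G : SimpleGraph V) (f g : V → ℝ) (c : ℝ) (z : V) :
    asum G (g - c • f) z = asum G g z - c * asum G f z := by
  classical
  unfold asum
  rw [Finset.mul_sum, ← Finset.sum_sub_distrib]
  refine Finset.sum_congr rfl fun w _ => ?_
  split_ifs
  · rfl
  · ring

/-- An eigenvector is determined by its coefficients. -/
theorem eq_zero (hm : ∀ u, 0 < m u) {b : U → ZMod 2} {f : DV m → ℝ} {l : ℝ}
    (hf : ∀ z, asum (dg P m b) f z = l * f z) (h1 : ∀ v, fs f v = 0)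
    (h2 : ∀ v i, fr b f v i = 0) : f = 0 := by
  have h3 : ∀ x : Cv U, pv f x 0 = 0 := by
    rintro ⟨v, β⟩
    have := recon b f v β
    rw [h1] at this
    simp only [h2, mul_zero, Finset.sum_const_zero, add_zero] at this
    linarith
  have h4 : ∀ (x : Cv U) (i : Fin (m x.1 + 1)), f (Sum.inl ⟨x, i⟩) = 0 := by
    intro x i
    have h5 := pv_eq hf x i (by have := i.2; omega)
    rw [h3, mul_zero] at h5
    unfold pv at h5
    rw [dif_pos i.2] at h5
    exact h5
  funext z
  rcases z with ⟨x, i⟩ | v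
  · exact h4 x i
  · have h5 := eq_core hm hf (v, 0)
    rw [h3] at h5
    have h6 : asum (cfi P b) (fun y => D l (m y.1) * pv f y 0) (v, 0) = 0 := by
      classical
      unfold asum
      refine Finset.sum_eq_zero fun y _ => ?_
      simp only [h3, mul_zero, ite_self]
    rw [h6, mul_zero, zero_add] at h5
    exact h5.symm

/-- The sums over the fibres solve the system. -/
theorem fs_mem (hm : ∀ u, 0 < m u) {b : U → ZMod 2} {f : DV m → ℝ} {l : ℝ}
    (hf : ∀ z, asum (dg P m b) f z = l * f z) : fs f ∈ EE P m l := by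
  intro v
  have h1 := eq_fs hm hf v
  have h2 := eq_inr hf v
  have h3 : l * f (Sum.inr v) = D l (m v) * fs f v := h2
  linear_combination l * h1 + 4 * h3

/-- A nonzero coefficient of a nontrivial character belongs to a critical edge. -/
theorem crit_of (hm : ∀ u, 0 < m u) {b : U → ZMod 2} {f : DV m → ℝ} {l : ℝ}
    (hf : ∀ z, asum (dg P m b) f z = l * f z) {v : U} {i : Fin 3} (h : fr b f v i ≠ 0) :
    Crit (m v) (m (P.nb v i)) l := by
  have h1 := eq_fr hm hf v i
  have h2 := eq_fr hm hf (P.nb v i) (P.rv i)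
  rw [P.nb_nb, P.rv_rv] at h2
  unfold Crit
  apply mul_right_cancel₀ h
  linear_combination D l (m (P.nb v i) + 1) * h1 + 2 * D l (m (P.nb v i)) * h2

/-- **The spectrum of the graph with pendant paths is simple.** -/
theorem dg_simple (hm : ∀ u, 0 < m u) (hone : ∀ x, One (EE P m x))
    (hte : ∀ u w, Adj P u w → ∀ x, Crit (m u) (m w) x → EE P m x = ⊥)
    (hee : ∀ u u' w w', Adj P u u' → Adj P w w' → s(u, u') ≠ s(w, w') → ∀ x,
      Crit (m u) (m u') x → ¬ Crit (m w) (m w') x) (b : U → ZMod 2) :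
    SimpleSpectrum (dg P m b) := by
  refine simple_of _ fun l f g hf0 hf hg => ?_
  have hsub : ∀ c : ℝ, ∀ z, asum (dg P m b) (g - c • f) z = l * (g - c • f) z := by
    intro c z
    rw [asum_sub, hf, hg]
    simp only [Pi.sub_apply, Pi.smul_apply, smul_eq_mul]
    ring
  -- a nonzero sum excludes the other characters
  have hzero : ∀ f : DV m → ℝ, (∀ z, asum (dg P m b) f z = l * f z) → fs f ≠ 0 →
      ∀ g : DV m → ℝ, (∀ z, asum (dg P m b) g z = l * g z) → ∀ v i, fr b g v i = 0 := by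
    intro f hf hfs g hg v i
    by_contra h
    have h1 := hte v (P.nb v i) ⟨i, rfl⟩ l (crit_of hm hg h)
    have h2 := fs_mem hm hf
    rw [h1, Submodule.mem_bot] at h2
    exact hfs h2
  by_cases hfs : fs f = 0
  · have hfr : ∃ v i, fr b f v i ≠ 0 := by
      by_contra h
      push Not at h
      exact hf0 (eq_zero hm hf (fun v => congrFun hfs v) h)
    obtain ⟨v, i, hvi⟩ := hfr
    have hgs : fs g = 0 := by
      by_contra h
      exact hvi (hzero g hg h f hf v i)
    have hc := crit_of hm hf hvi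
    -- other edges
    have hoth : ∀ f : DV m → ℝ, (∀ z, asum (dg P m b) f z = l * f z) → ∀ w j,
        fr b f w j ≠ 0 → (w = v ∧ j = i) ∨ (w = P.nb v i ∧ j = P.rv i) := by
      intro f hf w j hwj
      by_contra hcon
      have hc' := crit_of hm hf hwj
      refine hee v (P.nb v i) w (P.nb w j) ⟨i, rfl⟩ ⟨j, rfl⟩ ?_ l hc hc'
      intro hs
      rcases Sym2.eq_iff.1 hs with ⟨h1, h2⟩ | ⟨h1, h2⟩
      · subst h1
        exact hcon (Or.inl ⟨rfl, (P.nb_inj _ _ _ h2).symm⟩)
      · apply hcon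
        right
        refine ⟨h2.symm, ?_⟩
        refine P.nb_inj w _ _ ?_
        rw [← h1, ← h2, P.nb_nb]
    refine ⟨fr b g v i / fr b f v i, ?_⟩
    rw [← sub_eq_zero]
    refine eq_zero (b := b) hm (hsub _) ?_ ?_
    · intro w
      rw [fs_sub, hfs, hgs]
      simp
    · have h1 : fr b (g - (fr b g v i / fr b f v i) • f) v i = 0 := by
        rw [fr_sub, div_mul_cancel₀ _ hvi, sub_self]
      intro w j
      by_contra hwj
      rcases hoth _ (hsub _) w j hwj with ⟨rfl, rfl⟩ | ⟨rfl, rfl⟩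
      · exact hwj h1
      · have h2 := eq_fr hm (hsub (fr b g v i / fr b f v i)) v i
        have h3 := eq_fr hm (hsub (fr b g v i / fr b f v i)) (P.nb v i) (P.rv i)
        rw [P.nb_nb, P.rv_rv, h1, mul_zero, mul_zero] at h3
        rw [h1, mul_zero] at h2
        have h4 : D l (m (P.nb v i)) = 0 := by
          have h5 := (mul_eq_zero.1 h2.symm).resolve_left (by norm_num)
          exact (mul_eq_zero.1 h5).resolve_right hwj
        have h5 : D l (m (P.nb v i) + 1) = 0 := (mul_eq_zero.1 h3).resolve_right hwj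
        exact D_pair l _ ⟨h4, h5⟩
  · obtain ⟨c, hc⟩ := hone l (fs f) (fs_mem hm hf) hfs (fs g) (fs_mem hm hg)
    refine ⟨c, ?_⟩
    rw [← sub_eq_zero]
    refine eq_zero (b := b) hm (hsub _) ?_ ?_
    · intro w
      rw [fs_sub, hc]
      simp
    · intro w j
      rw [fr_sub, hzero f hf hfs g hg w j, hzero f hf hfs f hf w j]
      simp

end Pool.Agent.K4H86.SS
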