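import Pool.Agent.K4H86.SS.TSys

/-!
# The choice of the lengths
-/

set_option autoImplicit false
set_option linter.unusedSectionVars false

namespace Pool.Agent.K4H86.SS

open Polynomial Finset Pool.Agent.Y598.VT

/-- The eigenvalue equation of an edge. -/
def Crit (a b : ℕ) (x : ℝ) : Prop := D x (a + 1) * D x (b + 1) = 4 * (D x a * D x b)

theorem Crit.symm {a b : ℕ} {x : ℝ} (h : Crit a b x) : Crit b a x := by
  unfold Crit at *
  linear_combination h

theorem D_ne {x : ℝ} (hx : ¬ Cyc x) (k : ℕ) : D x k ≠ 0 := by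
  intro h
  rcases Nat.eq_zero_or_pos k with rfl | hk
  · simp at h
  · exact hx ⟨k, hk, h⟩

theorem D_pair (x : ℝ) (a : ℕ) : ¬ (D x a = 0 ∧ D x (a + 1) = 0) := by
  rintro ⟨h1, h2⟩
  have := D_sq x a
  rw [h1, h2] at this
  norm_num at this

theorem bracket (x : ℝ) {n n' : ℕ} (h : n < n') : ∃ k, D x (n + 1) * D x n' -
    D x n * D x (n' + 1) = D x k := by
  obtain ⟨k, hk⟩ := Nat.exists_eq_add_of_lt h
  refine ⟨k, ?_⟩
  subst hk
  exact D_cas x n k

theorem bracket_ne {x : ℝ} (hx : ¬ Cyc x) {n n' : ℕ} (h : n ≠ n') :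
    D x (n + 1) * D x n' - D x n * D x (n' + 1) ≠ 0 := by
  rcases lt_or_gt_of_ne h with h1 | h1
  · obtain ⟨k, hk⟩ := bracket x h1
    rw [hk]
    exact D_ne hx k
  · obtain ⟨k, hk⟩ := bracket x h1
    intro h2
    apply D_ne hx k
    rw [← hk]
    linear_combination -h2

theorem not_cyc_ne {x : ℝ} (hx : ¬ Cyc x) : x ≠ 0 := by
  rintro rfl
  exact hx ⟨1, le_rfl, rfl⟩

theorem crit_unique {x : ℝ} (hx : ¬ Cyc x) {a n n' : ℕ} (h : Crit a n x) (h' : Crit a n' x) :
    n = n' := by
  by_contra hne
  have h1 := bracket_ne hx hne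
  unfold Crit at h h'
  have e1 : D x (a + 1) * (D x (n + 1) * D x n' - D x n * D x (n' + 1)) = 0 := by
    linear_combination D x n' * h - D x n * h'
  have e2 : D x a * (D x (n + 1) * D x n' - D x n * D x (n' + 1)) = 0 := by
    linear_combination (-1 / 4 : ℝ) * D x (n + 1) * h' + (1 / 4 : ℝ) * D x (n' + 1) * h
  exact D_pair x a ⟨(mul_eq_zero.1 e2).resolve_right h1, (mul_eq_zero.1 e1).resolve_right h1⟩

theorem crit_cyc {x : ℝ} (hx : Cyc x) {a n : ℕ} (ha : Even a) {e : ℝ} (he : e * e = 1)
    (h1 : D x n = e) (h2 : D x (n + 1) = e * x) : ¬ Crit a n x := by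
  intro h
  unfold Crit at h
  rw [h1, h2] at h
  apply edge_ne hx ha
  linear_combination e * h + (4 * D x a - x * D x (a + 1)) * he

theorem crit_crit {x : ℝ} {a a' n : ℕ} (h : Crit a n x) (h' : Crit a' n x) :
    D x a * D x (a' + 1) = D x a' * D x (a + 1) := by
  unfold Crit at h h'
  by_cases h1 : D x n = 0
  · have h2 : D x (n + 1) ≠ 0 := fun h3 => D_pair x n ⟨h1, h3⟩
    rw [h1, mul_zero, mul_zero] at h h'
    rw [(mul_eq_zero.1 h).resolve_right h2, (mul_eq_zero.1 h').resolve_right h2]
    ring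
  · have h2 : 4 * D x n ≠ 0 := mul_ne_zero (by norm_num) h1
    apply mul_left_cancel₀ h2
    linear_combination D x (a + 1) * h' - D x (a' + 1) * h

theorem eval_crit (a b : ℕ) (x : ℝ) : Crit a b x ↔
    (D (X : ℝ[X]) (a + 1) * D X (b + 1) - 4 * (D X a * D X b)).eval x = 0 := by
  simp only [eval_sub, eval_mul, eval_D, eval_ofNat, sub_eq_zero]
  rfl

theorem crit_finite (a b : ℕ) : {x : ℝ | Crit a b x}.Finite := by
  have h : {x : ℝ | Crit a b x} =
      {x : ℝ | (D (X : ℝ[X]) (a + 1) * D X (b + 1) - 4 * (D X a * D X b)).eval x = 0} := by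
    ext x
    exact eval_crit a b x
  rw [h]
  refine finite_zeros _ ?_
  simp only [eval_sub, eval_mul, eval_D, eval_ofNat]
  obtain ⟨p1, p2, _⟩ := D_growth (x := 100) (by norm_num) a
  obtain ⟨q1, q2, _⟩ := D_growth (x := 100) (by norm_num) b
  have h1 : 99 * D (100 : ℝ) a * (99 * D (100 : ℝ) b) ≤ D (100 : ℝ) (a + 1) * D (100 : ℝ) (b + 1) := by
    refine mul_le_mul (by linarith) (by linarith) (by positivity) ?_
    linarith
  have h2 : 0 < D (100 : ℝ) a * D (100 : ℝ) b := mul_pos p1 q1
  have h3 : 99 * D (100 : ℝ) a * (99 * D (100 : ℝ) b) = 9801 * (D (100 : ℝ) a * D (100 : ℝ) b) := by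
    ring
  intro h4
  linarith

theorem par_finite {a b : ℕ} (hab : a ≠ b) :
    {x : ℝ | D x a * D x (b + 1) = D x b * D x (a + 1)}.Finite := by
  have h : {x : ℝ | D x a * D x (b + 1) = D x b * D x (a + 1)} =
      {x : ℝ | (D (X : ℝ[X]) a * D X (b + 1) - D X b * D X (a + 1)).eval x = 0} := by
    ext x
    simp only [Set.mem_ofPred_eq, eval_sub, eval_mul, eval_D, sub_eq_zero]
  rw [h]
  refine finite_zeros _ ?_
  simp only [eval_sub, eval_mul, eval_D]
  intro h1
  rcases lt_or_gt_of_ne hab with h2 | h2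
  · obtain ⟨k, hk⟩ := bracket (100 : ℝ) h2
    have := (D_growth (x := 100) (by norm_num) k).1
    rw [← hk] at this
    linarith
  · obtain ⟨k, hk⟩ := bracket (100 : ℝ) h2
    have := (D_growth (x := 100) (by norm_num) k).1
    rw [← hk] at this
    linarith

variable {U : Type} [Fintype U] [DecidableEq U] (P : Ports U)

/-- The system for the lengths `m`. -/
def EE (m : U → ℕ) (x : ℝ) : Submodule ℝ (U → ℝ) :=
  E P (fun v => D x (m v + 1)) (fun v => D x (m v)) x

/-- The dimension is at most one. -/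
def One (W : Submodule ℝ (U → ℝ)) : Prop := ∀ T ∈ W, T ≠ 0 → ∀ T' ∈ W, ∃ c : ℝ, T' = c • T

/-- Adjacent nodes. -/
def Adj (u v : U) : Prop := ∃ j, P.nb u j = v

theorem Adj.symm {u v : U} (h : Adj P u v) : Adj P v u := by
  obtain ⟨j, rfl⟩ := h
  exact ⟨P.rv j, P.nb_nb u j⟩

theorem Adj.ne {u v : U} (h : Adj P u v) : u ≠ v := by
  obtain ⟨j, rfl⟩ := h
  exact (P.nb_ne u j).symm

/-- The conditions after the choice of the lengths for the nodes in `S`. -/
structure Inv (S : Finset U) (m : U → ℕ) : Prop where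
  out : ∀ u, u ∉ S → m u = 0
  even : ∀ u, Even (m u)
  pos : ∀ u ∈ S, 0 < m u
  inj : ∀ u ∈ S, ∀ u' ∈ S, m u = m u' → u = u'
  mult : ∀ x, One (EE P m x) ∨ ∀ T ∈ EE P m x, ∀ u ∈ S, T u = 0
  tedge : ∀ u ∈ S, ∀ u' ∈ S, Adj P u u' → ∀ x, Crit (m u) (m u') x → EE P m x = ⊥
  edge : ∀ u ∈ S, ∀ u' ∈ S, ∀ w ∈ S, ∀ w' ∈ S, Adj P u u' → Adj P w w' →
    s(u, u') ≠ s(w, w') → ∀ x, Crit (m u) (m u') x → ¬ Crit (m w) (m w') x

theorem inv_empty : Inv P ∅ (fun _ => 0) where
  out _ _ := rfl
  even _ := Even.zero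
  pos u hu := absurd hu (Finset.notMem_empty u)
  inj u hu := absurd hu (Finset.notMem_empty u)
  mult _ := Or.inr fun _ _ u hu => absurd hu (Finset.notMem_empty u)
  tedge u hu := absurd hu (Finset.notMem_empty u)
  edge u hu := absurd hu (Finset.notMem_empty u)

theorem mem_of_zero {m : U → ℕ} {v : U} (hv : m v = 0) {n : ℕ} {x : ℝ} {T : U → ℝ}
    (hT : T ∈ EE P (Function.update m v n) x) (h0 : T v = 0) : T ∈ EE P m x := by
  refine transfer P hT fun u => ?_
  by_cases hu : u = v
  · subst hu
    rw [h0]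
    simp
  · rw [Function.update_of_ne hu]
    exact ⟨rfl, rfl⟩

theorem scale_mem {m : U → ℕ} {v : U} (hv : m v = 0) {n : ℕ} {x e : ℝ}
    (h1 : D x n = e) (h2 : D x (n + 1) = e * x) {T : U → ℝ}
    (hT : T ∈ EE P (Function.update m v n) x) : Function.update T v (e * T v) ∈ EE P m x := by
  refine transfer P hT fun u => ?_
  by_cases hu : u = v
  · subst hu
    rw [Function.update_self, Function.update_self, hv, h1, h2]
    simp only [D_zero, zero_add, D_one]
    constructor <;> ring
  · rw [Function.update_of_ne hu, Function.update_of_ne hu]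
    exact ⟨rfl, rfl⟩

theorem scale_ne {v : U} {e : ℝ} (he : e * e = 1) {T : U → ℝ} (hT : T ≠ 0) :
    Function.update T v (e * T v) ≠ 0 := by
  intro h
  apply hT
  funext u
  by_cases hu : u = v
  · subst hu
    have h1 := congrFun h u
    rw [Function.update_self, Pi.zero_apply] at h1
    have h2 : e ≠ 0 := by
      rintro rfl
      norm_num at he
    exact (mul_eq_zero.1 h1).resolve_left h2
  · have h1 := congrFun h u
    rw [Function.update_of_ne hu] at h1
    exact h1

/-- The requirement on the new length. -/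
def Req (S : Finset U) (m : U → ℕ) (v : U) (x : ℝ) (n : ℕ) : Prop :=
  (Cyc x → ∃ e : ℝ, e * e = 1 ∧ D x n = e ∧ D x (n + 1) = e * x) ∧
  (¬ Cyc x → (∀ T ∈ EE P (Function.update m v n) x, T v = 0) ∧ ∀ u ∈ S, ¬ Crit (m u) n x)

theorem exists_req (S : Finset U) (m : U → ℕ) (v : U) (x : ℝ) :
    ∃ (N : ℕ) (B : Set ℕ), 0 < N ∧ B.Finite ∧ ∀ n, N ∣ n → n ∉ B → Req P S m v x n := by
  by_cases hx : Cyc x
  · obtain ⟨r, hr1, hr⟩ := id hx
    refine ⟨r + 1, ∅, by omega, Set.finite_empty, ?_⟩
    rintro n ⟨t, rfl⟩ _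
    refine ⟨fun _ => ?_, fun h => absurd hx h⟩
    obtain ⟨e, he, hk⟩ := D_period hr t
    refine ⟨e, he, ?_, ?_⟩
    · have := hk 0
      rwa [add_zero, D_zero, mul_one] at this
    · have := hk 1
      rwa [D_one] at this
  · refine ⟨1, {n | ∃ T ∈ EE P (Function.update m v n) x, T v ≠ 0} ∪
      ⋃ u ∈ S, {n | Crit (m u) n x}, one_pos, ?_, ?_⟩
    · refine Set.Finite.union ?_ ?_
      · refine Set.Subsingleton.finite ?_
        rintro n ⟨T, hT, hTv⟩ n' ⟨T', hT', hTv'⟩
        by_contra hne
        have h1 := wron P hT hT' v (by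
          intro u hu
          rw [Function.update_of_ne hu, Function.update_of_ne hu]
          exact ⟨rfl, rfl⟩)
        simp only [Function.update_self] at h1
        have h2 := bracket_ne hx hne
        have h3 := not_cyc_ne hx
        rcases mul_eq_zero.1 h1 with h4 | h4
        · rcases mul_eq_zero.1 h4 with h5 | h5
          · exact h3 h5
          · apply h2
            linear_combination h5
        · rcases mul_eq_zero.1 h4 with h5 | h5
          · exact hTv h5
          · exact hTv' h5
      · refine Set.Finite.biUnion (Finset.finite_toSet S) fun u _ => ?_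
        refine Set.Subsingleton.finite ?_
        intro n hn n' hn'
        exact crit_unique hx hn hn'
    · intro n _ hn
      refine ⟨fun h => absurd h hx, fun _ => ⟨?_, ?_⟩⟩
      · intro T hT
        by_contra h
        exact hn (Or.inl ⟨T, hT, h⟩)
      · intro u hu h
        refine hn (Or.inr ?_)
        simp only [Set.mem_iUnion]
        exact ⟨u, hu, h⟩

theorem exists_n (S : Finset U) (m : U → ℕ) (v : U) (F : Set ℝ) (hF : F.Finite) :
    ∃ n, Even n ∧ 0 < n ∧ (∀ u, m u < n) ∧ ∀ x ∈ F, Req P S m v x n := by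
  choose N B hN hB h using fun x => exists_req P S m v x
  have hfin : (⋃ x ∈ F, B x).Finite := hF.biUnion fun x _ => hB x
  obtain ⟨b, hb⟩ := hfin.bddAbove
  let M : ℕ := 2 * ∏ x ∈ hF.toFinset, N x
  have hM : 0 < M := Nat.mul_pos (by norm_num) (Finset.prod_pos fun x _ => hN x)
  refine ⟨M * (b + ∑ u, m u + 1), ?_, ?_, ?_, ?_⟩
  · exact ⟨(∏ x ∈ hF.toFinset, N x) * (b + ∑ u, m u + 1), by simp only [M]; ring⟩
  · positivity
  · intro u
    have h1 : m u ≤ ∑ u, m u := Finset.single_le_sum (fun _ _ => Nat.zero_le _) (Finset.mem_univ u)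
    have h2 : b + ∑ u, m u + 1 ≤ M * (b + ∑ u, m u + 1) := Nat.le_mul_of_pos_left _ hM
    omega
  · intro x hx
    refine h x _ ?_ ?_
    · refine Dvd.dvd.mul_right (Dvd.dvd.mul_left ?_ _) _
      exact Finset.dvd_prod_of_mem _ (hF.mem_toFinset.2 hx)
    · intro h1
      have h3 : M * (b + ∑ u, m u + 1) ≤ b := hb (Set.mem_biUnion hx h1)
      have h2 : b + ∑ u, m u + 1 ≤ M * (b + ∑ u, m u + 1) := Nat.le_mul_of_pos_left _ hM
      omega

theorem EE_finite (m : U → ℕ) : {x : ℝ | EE P m x ≠ ⊥}.Finite := by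
  have h := finite_E P (fun v => D X (m v + 1)) (fun v => D X (m v)) (by
    simp only [eval_D]
    refine big1 P fun u => ?_
    obtain ⟨p1, p2, _⟩ := D_growth (x := 100) (by norm_num) (m u)
    exact ⟨p1, by linarith⟩)
  simp only [eval_D] at h
  exact h

/-- The modified system. -/
def EZ (m : U → ℕ) (v : U) (a : ℕ) (x : ℝ) : Submodule ℝ (U → ℝ) :=
  E P (fun w => if w = v then 4 * D x a else D x (m w + 1))
    (fun w => if w = v then D x (a + 1) else D x (m w)) x

theorem EZ_finite (m : U → ℕ) (v : U) (a : ℕ) : {x : ℝ | EZ P m v a x ≠ ⊥}.Finite := by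
  have h := finite_E P (fun w => if w = v then 4 * D X a else D X (m w + 1))
    (fun w => if w = v then D X (a + 1) else D X (m w)) (by
    have e1 : (fun w => eval (100 : ℝ) (if w = v then 4 * D X a else D X (m w + 1))) =
        fun w => if w = v then 4 * D 100 a else D 100 (m w + 1) := by
      funext w
      split_ifs
      · simp [eval_D]
      · rw [eval_D]
    have e2 : (fun w => eval (100 : ℝ) (if w = v then D X (a + 1) else D X (m w))) =
        fun w => if w = v then D 100 (a + 1) else D 100 (m w) := by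
      funext w
      split_ifs
      · rw [eval_D]
      · rw [eval_D]
    rw [e1, e2]
    obtain ⟨q1, q2, _⟩ := D_growth (x := 100) (by norm_num) a
    refine big2 P v (fun u hu => ?_) ?_ ?_
    · rw [if_neg hu, if_neg hu]
      obtain ⟨p1, p2, p3⟩ := D_growth (x := 100) (by norm_num) (m u)
      exact ⟨p1, by linarith, p3⟩
    · rw [if_pos rfl]
      linarith
    · rw [if_pos rfl, if_pos rfl]
      linarith)
  refine h.subset ?_
  intro x hx
  have e1 : (fun w => eval x (if w = v then 4 * D X a else D X (m w + 1))) =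
      fun w => if w = v then 4 * D x a else D x (m w + 1) := by
    funext w
    split_ifs
    · simp [eval_D]
    · rw [eval_D]
  have e2 : (fun w => eval x (if w = v then D X (a + 1) else D X (m w))) =
      fun w => if w = v then D x (a + 1) else D x (m w) := by
    funext w
    split_ifs
    · rw [eval_D]
    · rw [eval_D]
  show E P _ _ x ≠ ⊥
  rw [e1, e2]
  exact hx

/-- A solution at a critical point of a new edge gives a solution of the modified system. -/
theorem EZ_ne {m : U → ℕ} {v : U} {a n : ℕ} {x : ℝ} (hc : Crit a n x) {T : U → ℝ}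
    (hT : T ∈ EE P (Function.update m v n) x) (hTv : T v ≠ 0) : EZ P m v a x ≠ ⊥ := by
  unfold Crit at hc
  obtain ⟨τ, hτ0, h1, h2⟩ : ∃ τ : ℝ, τ ≠ 0 ∧ 4 * D x a * τ = D x (n + 1) * T v ∧
      D x (a + 1) * τ = D x n * T v := by
    by_cases ha : D x (a + 1) = 0
    · have ha' : D x a ≠ 0 := fun h => D_pair x a ⟨h, ha⟩
      have hn : D x n = 0 := by
        rw [ha, zero_mul] at hc
        have := (mul_eq_zero.1 hc.symm).resolve_left (by norm_num)
        exact (mul_eq_zero.1 this).resolve_left ha'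
      have hn' : D x (n + 1) ≠ 0 := fun h => D_pair x n ⟨hn, h⟩
      refine ⟨D x (n + 1) * T v / (4 * D x a), ?_, ?_, ?_⟩
      · exact div_ne_zero (mul_ne_zero hn' hTv) (mul_ne_zero (by norm_num) ha')
      · field_simp
      · rw [ha, hn]
        ring
    · have hn : D x n ≠ 0 := by
        intro h
        rw [h, mul_zero, mul_zero] at hc
        exact D_pair x n ⟨h, (mul_eq_zero.1 hc).resolve_left ha⟩
      refine ⟨D x n * T v / D x (a + 1), ?_, ?_, ?_⟩
      · exact div_ne_zero (mul_ne_zero hn hTv) ha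
      · field_simp
        linear_combination -hc
      · field_simp
  intro h
  have h3 : Function.update T v τ ∈ EZ P m v a x := by
    refine transfer P hT fun u => ?_
    by_cases hu : u = v
    · subst hu
      rw [Function.update_self, Function.update_self, if_pos rfl, if_pos rfl]
      exact ⟨h1.symm, h2.symm⟩
    · rw [Function.update_of_ne hu, Function.update_of_ne hu, if_neg hu, if_neg hu]
      exact ⟨rfl, rfl⟩
  rw [h, Submodule.mem_bot] at h3
  have h4 := congrFun h3 v
  rw [Function.update_self] at h4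
  exact hτ0 h4

theorem One.mono {W W' : Submodule ℝ (U → ℝ)} (h : W ≤ W') (h' : One W') : One W :=
  fun T hT hT0 T' hT' => h' T (h hT) hT0 T' (h hT')

theorem exists_vanishing {W : Submodule ℝ (U → ℝ)} (h : ¬ One W) (v : U) :
    ∃ K ∈ W, K ≠ 0 ∧ K v = 0 := by
  unfold One at h
  push Not at h
  obtain ⟨T, hT, hT0, T', hT', hc⟩ := h
  by_cases h1 : T v = 0
  · exact ⟨T, hT, hT0, h1⟩
  · refine ⟨T' - (T' v / T v) • T, W.sub_mem hT' (W.smul_mem _ hT), ?_, ?_⟩
    · rw [sub_ne_zero]
      exact hc _
    · simp only [Pi.sub_apply, Pi.smul_apply, smul_eq_mul]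
      rw [div_mul_cancel₀ _ h1, sub_self]

/-- The induction step. -/
theorem step {S : Finset U} {m : U → ℕ} (hI : Inv P S m) {v : U} (hv : v ∉ S) :
    ∃ n, Inv P (insert v S) (Function.update m v n) := by
  classical
  have hm : m v = 0 := hI.out v hv
  let F : Set ℝ := {x | EE P m x ≠ ⊥} ∪ (⋃ u ∈ S, ⋃ u' ∈ S, {x | Crit (m u) (m u') x}) ∪
    (⋃ u ∈ S, {x | EZ P m v (m u) x ≠ ⊥}) ∪
    ⋃ u ∈ S, ⋃ u' ∈ S, {x | m u ≠ m u' ∧ D x (m u) * D x (m u' + 1) = D x (m u') * D x (m u + 1)}
  have hF : F.Finite := by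
    refine Set.Finite.union (Set.Finite.union (Set.Finite.union (EE_finite P m) ?_) ?_) ?_
    · exact (Finset.finite_toSet S).biUnion fun u _ => (Finset.finite_toSet S).biUnion fun u' _ =>
        crit_finite _ _
    · exact (Finset.finite_toSet S).biUnion fun u _ => EZ_finite P m v _
    · refine (Finset.finite_toSet S).biUnion fun u _ => (Finset.finite_toSet S).biUnion
        fun u' _ => ?_
      by_cases h : m u = m u'
      · have : {x : ℝ | m u ≠ m u' ∧ D x (m u) * D x (m u' + 1) = D x (m u') * D x (m u + 1)} = ∅ := by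
          ext x
          simp [h]
        rw [this]
        exact Set.finite_empty
      · exact (par_finite h).subset fun x hx => hx.2
  have F1 : ∀ x, EE P m x ≠ ⊥ → x ∈ F := fun x hx => Or.inl (Or.inl (Or.inl hx))
  have F2 : ∀ u ∈ S, ∀ u' ∈ S, ∀ x, Crit (m u) (m u') x → x ∈ F := by
    intro u hu u' hu' x hx
    refine Or.inl (Or.inl (Or.inr ?_))
    simp only [Set.mem_iUnion]
    exact ⟨u, hu, u', hu', hx⟩
  have F3 : ∀ u ∈ S, ∀ x, EZ P m v (m u) x ≠ ⊥ → x ∈ F := by
    intro u hu x hx
    refine Or.inl (Or.inr ?_)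
    simp only [Set.mem_iUnion]
    exact ⟨u, hu, hx⟩
  have F4 : ∀ u ∈ S, ∀ u' ∈ S, u ≠ u' → ∀ x,
      D x (m u) * D x (m u' + 1) = D x (m u') * D x (m u + 1) → x ∈ F := by
    intro u hu u' hu' hne x hx
    refine Or.inr ?_
    simp only [Set.mem_iUnion]
    exact ⟨u, hu, u', hu', fun h => hne (hI.inj u hu u' hu' h), hx⟩
  obtain ⟨n, hn1, hn2, hn3, hn4⟩ := exists_n P S m v F hF
  refine ⟨n, ?_⟩
  -- no new edge is critical on `F`
  have hcr : ∀ x ∈ F, ∀ u ∈ S, ¬ Crit (m u) n x := by
    intro x hx u hu hc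
    obtain ⟨r1, r2⟩ := hn4 x hx
    by_cases hcy : Cyc x
    · obtain ⟨e, he, h1, h2⟩ := r1 hcy
      exact crit_cyc hcy (hI.even u) he h1 h2 hc
    · exact (r2 hcy).2 u hu hc
  have hne : ∀ u ∈ S, u ≠ v := fun u hu h => hv (h ▸ hu)
  -- the values at `v`
  have hval : ∀ x ∈ F, ∀ T ∈ EE P (Function.update m v n) x, EE P m x = ⊥ → T = 0 := by
    intro x hx T hT hbot
    obtain ⟨r1, r2⟩ := hn4 x hx
    by_contra hT0
    by_cases hcy : Cyc x
    · obtain ⟨e, he, h1, h2⟩ := r1 hcy
      have h3 := scale_mem P hm h1 h2 hT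
      rw [hbot, Submodule.mem_bot] at h3
      exact scale_ne he hT0 h3
    · have h3 := mem_of_zero P hm hT ((r2 hcy).1 T hT)
      rw [hbot, Submodule.mem_bot] at h3
      exact hT0 h3
  have hnewt : ∀ u ∈ S, ∀ x, Crit (m u) n x → EE P (Function.update m v n) x = ⊥ := by
    intro u hu x hc
    rw [eq_bot_iff]
    intro T hT
    rw [Submodule.mem_bot]
    by_contra hT0
    have hxF : x ∈ F := by
      by_cases h0 : T v = 0
      · refine F1 x fun h => ?_
        have h3 := mem_of_zero P hm hT h0
        rw [h, Submodule.mem_bot] at h3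
        exact hT0 h3
      · exact F3 u hu x (EZ_ne P hc hT h0)
    exact hcr x hxF u hu hc
  have hv' : (Function.update m v n) v = n := Function.update_self ..
  have hu' : ∀ u ∈ S, (Function.update m v n) u = m u := fun u hu =>
    Function.update_of_ne (hne u hu) ..
  refine ⟨?_, ?_, ?_, ?_, ?_, ?_, ?_⟩
  · intro u hu
    rw [Finset.mem_insert] at hu
    push Not at hu
    rw [Function.update_of_ne hu.1]
    exact hI.out u hu.2
  · intro u
    by_cases hu : u = v
    · rw [hu, hv']
      exact hn1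
    · rw [Function.update_of_ne hu]
      exact hI.even u
  · intro u hu
    rcases Finset.mem_insert.1 hu with rfl | ku
    · rw [hv']
      exact hn2
    · rw [hu' u ku]
      exact hI.pos u ku
  · intro u hu w hw h
    rcases Finset.mem_insert.1 hu with rfl | ku
    · rcases Finset.mem_insert.1 hw with rfl | kw
      · rfl
      · rw [hv', hu' w kw] at h
        have := hn3 w
        omega
    · rcases Finset.mem_insert.1 hw with rfl | kw
      · rw [hv', hu' u ku] at h
        have := hn3 u
        omega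
      · rw [hu' u ku, hu' w kw] at h
        exact hI.inj u ku w kw h
  · intro x
    by_contra hcon
    push Not at hcon
    obtain ⟨h1, T, hT, u, hu, hTu⟩ := hcon
    have key : ∀ T ∈ EE P (Function.update m v n) x, T v = 0 := by
      by_contra hcon2
      push Not at hcon2
      obtain ⟨R, hR, hRv⟩ := hcon2
      obtain ⟨K, hK, hK0, hKv⟩ := exists_vanishing h1 v
      have hKm := mem_of_zero P hm hK hKv
      have hxF : x ∈ F := F1 x fun h => by
        rw [h, Submodule.mem_bot] at hKm
        exact hK0 hKm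
      obtain ⟨r1, r2⟩ := hn4 x hxF
      by_cases hcy : Cyc x
      · obtain ⟨e, he, e1, e2⟩ := r1 hcy
        have he0 : e ≠ 0 := by
          rintro rfl
          norm_num at he
        rcases hI.mult x with h3 | h3
        · apply h1
          intro A hA hA0 A' hA'
          obtain ⟨c, hc⟩ := h3 _ (scale_mem P hm e1 e2 hA) (scale_ne he hA0) _
            (scale_mem P hm e1 e2 hA')
          refine ⟨c, ?_⟩
          funext w
          have h4 := congrFun hc w
          by_cases hw : w = v
          · subst hw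
            simp only [Function.update_self, Pi.smul_apply, smul_eq_mul] at h4 ⊢
            apply mul_left_cancel₀ he0
            linear_combination h4
          · simp only [Function.update_of_ne hw, Pi.smul_apply, smul_eq_mul] at h4 ⊢
            exact h4
        · have h4 := scale_mem P hm e1 e2 hR
          have h5 := h3 _ h4
          have h6 : Function.update R v (e * R v) ∈ E P (fun _ => x) (fun _ => 1) x := by
            refine transfer P h4 fun w => ?_
            by_cases hw : w ∈ S
            · rw [h5 w hw]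
              simp
            · rw [hI.out w hw]
              exact ⟨rfl, rfl⟩
          have h7 := congrFun (base P hcy h6) v
          rw [Function.update_self, Pi.zero_apply] at h7
          exact hRv ((mul_eq_zero.1 h7).resolve_left he0)
      · exact hRv ((r2 hcy).1 R hR)
    have hle : EE P (Function.update m v n) x ≤ EE P m x := fun R hR =>
      mem_of_zero P hm hR (key R hR)
    rcases hI.mult x with h3 | h3
    · exact h1 (One.mono hle h3)
    · rcases Finset.mem_insert.1 hu with rfl | ku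
      · exact hTu (key T hT)
      · exact hTu (h3 T (hle hT) u ku)
  · intro u hu w hw hadj x hc
    rcases Finset.mem_insert.1 hu with rfl | ku
    · rcases Finset.mem_insert.1 hw with rfl | kw
      · exact absurd rfl hadj.ne
      · rw [hv', hu' w kw] at hc
        exact hnewt w kw x hc.symm
    · rcases Finset.mem_insert.1 hw with rfl | kw
      · rw [hv', hu' u ku] at hc
        exact hnewt u ku x hc
      · rw [hu' u ku, hu' w kw] at hc
        have h3 := hI.tedge u ku w kw hadj x hc
        rw [eq_bot_iff]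
        intro T hT
        rw [Submodule.mem_bot]
        exact hval x (F2 u ku w kw x hc) T hT h3
  · -- the pairs of edges
    have hpair : ∀ u ∈ S, ∀ w ∈ S, u ≠ w → ∀ x, Crit (m u) n x → ¬ Crit (m w) n x := by
      intro u hu w hw huw x h1 h2
      exact hcr x (F4 u hu w hw huw x (crit_crit h1 h2)) u hu h1
    have hmix : ∀ u ∈ S, ∀ w ∈ S, ∀ w' ∈ S, ∀ x, Crit (m w) (m w') x → ¬ Crit (m u) n x := by
      intro u hu w hw w' hw' x h1
      exact hcr x (F2 w hw w' hw' x h1) u hu
    intro u hu u2 hu2 w hw w2 hw2 ha ha' hs x h1 h2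
    rcases Finset.mem_insert.1 hu with rfl | ku
    · rcases Finset.mem_insert.1 hu2 with rfl | ku2
      · exact absurd rfl ha.ne
      · rw [hv', hu' u2 ku2] at h1
        rcases Finset.mem_insert.1 hw with rfl | kw
        · rcases Finset.mem_insert.1 hw2 with rfl | kw2
          · exact absurd rfl ha'.ne
          · rw [hv', hu' w2 kw2] at h2
            exact hpair u2 ku2 w2 kw2 (fun h => hs (by rw [h])) x h1.symm h2.symm
        · rcases Finset.mem_insert.1 hw2 with rfl | kw2
          · rw [hv', hu' w kw] at h2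
            exact hpair u2 ku2 w kw (fun h => hs (by rw [h, Sym2.eq_swap])) x h1.symm h2
          · rw [hu' w kw, hu' w2 kw2] at h2
            exact hmix u2 ku2 w kw w2 kw2 x h2 h1.symm
    · rcases Finset.mem_insert.1 hu2 with rfl | ku2
      · rw [hv', hu' u ku] at h1
        rcases Finset.mem_insert.1 hw with rfl | kw
        · rcases Finset.mem_insert.1 hw2 with rfl | kw2
          · exact absurd rfl ha'.ne
          · rw [hv', hu' w2 kw2] at h2
            exact hpair u ku w2 kw2 (fun h => hs (by rw [h, Sym2.eq_swap])) x h1 h2.symm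
        · rcases Finset.mem_insert.1 hw2 with rfl | kw2
          · rw [hv', hu' w kw] at h2
            exact hpair u ku w kw (fun h => hs (by rw [h])) x h1 h2
          · rw [hu' w kw, hu' w2 kw2] at h2
            exact hmix u ku w kw w2 kw2 x h2 h1
      · rw [hu' u ku, hu' u2 ku2] at h1
        rcases Finset.mem_insert.1 hw with rfl | kw
        · rcases Finset.mem_insert.1 hw2 with rfl | kw2
          · exact absurd rfl ha'.ne
          · rw [hv', hu' w2 kw2] at h2
            exact hmix w2 kw2 u ku u2 ku2 x h1 h2.symm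
        · rcases Finset.mem_insert.1 hw2 with rfl | kw2
          · rw [hv', hu' w kw] at h2
            exact hmix w kw u ku u2 ku2 x h1 h2
          · rw [hu' w kw, hu' w2 kw2] at h2
            exact hI.edge u ku u2 ku2 w kw w2 kw2 ha ha' hs x h1 h2

/-- **The choice of the lengths.** -/
theorem exists_lengths : ∃ m : U → ℕ, (∀ u, 0 < m u) ∧ (∀ x, One (EE P m x)) ∧
    (∀ u w, Adj P u w → ∀ x, Crit (m u) (m w) x → EE P m x = ⊥) ∧
    ∀ u u' w w', Adj P u u' → Adj P w w' → s(u, u') ≠ s(w, w') → ∀ x, Crit (m u) (m u') x →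
      ¬ Crit (m w) (m w') x := by
  have h : ∀ S : Finset U, ∃ m, Inv P S m := by
    intro S
    induction S using Finset.induction_on with
    | empty => exact ⟨_, inv_empty P⟩
    | insert v S hv ih =>
      obtain ⟨m, hm⟩ := ih
      obtain ⟨n, hn⟩ := step P hm hv
      exact ⟨_, hn⟩
  obtain ⟨m, hm⟩ := h Finset.univ
  refine ⟨m, fun u => hm.pos u (Finset.mem_univ u), fun x => ?_, fun u w =>
    hm.tedge u (Finset.mem_univ u) w (Finset.mem_univ w), fun u u' w w' =>
    hm.edge u (Finset.mem_univ u) u' (Finset.mem_univ u') w (Finset.mem_univ w) w'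
      (Finset.mem_univ w')⟩
  rcases hm.mult x with h1 | h1
  · exact h1
  · intro T hT hT0
    exact absurd (funext fun u => h1 T hT u (Finset.mem_univ u)) hT0

end Pool.Agent.K4H86.SS
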