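import Pool.Agent.K4H86.SS.Cheb
import Pool.Agent.Y598.VT.Cfi

/-!
# The lengths of the paths

The eigenvalue equations on the functions which are constant on the fibres.
-/

set_option autoImplicit false
set_option linter.unusedSectionVars false

namespace Pool.Agent.K4H86.SS

open Polynomial Finset Pool.Agent.Y598.VT

variable {U : Type} [Fintype U] [DecidableEq U] (P : Ports U)

/-- The sum of a function over the neighbours. -/
def nbs (f : U → ℝ) (v : U) : ℝ := ∑ j, f (P.nb v j)

/-- The involution of the ports. -/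
def flip : U × Fin 3 ≃ U × Fin 3 where
  toFun h := (P.nb h.1 h.2, P.rv h.2)
  invFun h := (P.nb h.1 h.2, P.rv h.2)
  left_inv h := by
    show (P.nb (P.nb h.1 h.2) (P.rv h.2), P.rv (P.rv h.2)) = h
    rw [P.nb_nb, P.rv_rv]
  right_inv h := by
    show (P.nb (P.nb h.1 h.2) (P.rv h.2), P.rv (P.rv h.2)) = h
    rw [P.nb_nb, P.rv_rv]

theorem nbs_symm (f g : U → ℝ) : ∑ v, f v * nbs P g v = ∑ v, nbs P f v * g v := by
  have h1 : ∑ v, f v * nbs P g v = ∑ h : U × Fin 3, f h.1 * g (P.nb h.1 h.2) := by
    rw [Fintype.sum_prod_type]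
    refine Finset.sum_congr rfl fun v _ => ?_
    unfold nbs
    rw [Finset.mul_sum]
  have h2 : ∑ v, nbs P f v * g v = ∑ h : U × Fin 3, f (P.nb h.1 h.2) * g h.1 := by
    rw [Fintype.sum_prod_type]
    refine Finset.sum_congr rfl fun v _ => ?_
    unfold nbs
    rw [Finset.sum_mul]
  rw [h1, h2, ← Equiv.sum_comp (flip P)]
  refine Finset.sum_congr rfl fun h _ => ?_
  show f (P.nb h.1 h.2) * g (P.nb (P.nb h.1 h.2) (P.rv h.2)) = _
  rw [P.nb_nb]

/-- The solutions of the system with the coefficients `p`, `q` at the point `x`. -/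
def E (p q : U → ℝ) (x : ℝ) : Submodule ℝ (U → ℝ) where
  carrier := {T | ∀ v, (x * p v - 4 * q v) * T v = 2 * x * nbs P (fun w => q w * T w) v}
  add_mem' := by
    intro T T' h h' v
    have h1 := h v
    have h2 := h' v
    unfold nbs at *
    simp only [Pi.add_apply, mul_add, Finset.sum_add_distrib]
    rw [h1, h2]
  zero_mem' := by
    intro v
    unfold nbs
    simp
  smul_mem' := by
    intro c T h v
    have h1 := h v
    unfold nbs at *
    simp only [Pi.smul_apply, smul_eq_mul]
    have h2 : ∀ j, q (P.nb v j) * (c * T (P.nb v j)) = c * (q (P.nb v j) * T (P.nb v j)) :=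
      fun j => by ring
    simp only [h2, ← Finset.mul_sum]
    linear_combination c * h1

theorem mem_E {p q : U → ℝ} {x : ℝ} {T : U → ℝ} : T ∈ E P p q x ↔
    ∀ v, (x * p v - 4 * q v) * T v = 2 * x * nbs P (fun w => q w * T w) v := Iff.rfl

theorem transfer {p q p' q' : U → ℝ} {x : ℝ} {T T' : U → ℝ} (hT : T ∈ E P p q x)
    (h : ∀ u, p u * T u = p' u * T' u ∧ q u * T u = q' u * T' u) : T' ∈ E P p' q' x := by
  intro v
  have h1 := hT v
  have h2 : (fun w => q w * T w) = fun w => q' w * T' w := funext fun w => (h w).2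
  rw [h2] at h1
  rw [← h1]
  linear_combination -x * (h v).1 + 4 * (h v).2

/-- The Wronskian. -/
theorem wron {p q p' q' : U → ℝ} {x : ℝ} {T T' : U → ℝ} (hT : T ∈ E P p q x)
    (hT' : T' ∈ E P p' q' x) (v : U) (h : ∀ u, u ≠ v → p u = p' u ∧ q u = q' u) :
    x * (p v * q' v - p' v * q v) * (T v * T' v) = 0 := by
  have h1 := nbs_symm P (fun w => q' w * T' w) (fun w => q w * T w)
  rw [← Finset.add_sum_erase _ _ (Finset.mem_univ v),
    ← Finset.add_sum_erase (f := fun w => nbs P (fun w => q' w * T' w) w * (q w * T w)) _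
      (Finset.mem_univ v)] at h1
  have h2 : 2 * x * ∑ w ∈ Finset.univ.erase v, (q' w * T' w) * nbs P (fun w => q w * T w) w =
      2 * x * ∑ w ∈ Finset.univ.erase v, nbs P (fun w => q' w * T' w) w * (q w * T w) := by
    rw [Finset.mul_sum, Finset.mul_sum]
    refine Finset.sum_congr rfl fun u hu => ?_
    obtain ⟨hu1, _⟩ := Finset.mem_erase.1 hu
    obtain ⟨e1, e2⟩ := h u hu1
    have h3 := hT u
    have h4 := hT' u
    rw [e1, e2] at h3
    calc 2 * x * (q' u * T' u * nbs P (fun w => q w * T w) u)
        = (q' u * T' u) * (2 * x * nbs P (fun w => q w * T w) u) := by ring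
      _ = (q' u * T' u) * ((x * p' u - 4 * q' u) * T u) := by rw [← h3]
      _ = ((x * p' u - 4 * q' u) * T' u) * (q' u * T u) := by ring
      _ = (2 * x * nbs P (fun w => q' w * T' w) u) * (q' u * T u) := by rw [← h4]
      _ = _ := by rw [e2]; ring
  have h5 : 2 * x * ((q' v * T' v) * nbs P (fun w => q w * T w) v) =
      2 * x * (nbs P (fun w => q' w * T' w) v * (q v * T v)) := by
    have := congrArg (fun z => 2 * x * z) h1
    simp only [mul_add] at this
    linarith
  have h3 := hT v
  have h4 := hT' v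
  have h6 : (q' v * T' v) * ((x * p v - 4 * q v) * T v) =
      ((x * p' v - 4 * q' v) * T' v) * (q v * T v) := by
    rw [h3, h4]
    linear_combination h5
  linear_combination h6

/-! ### Finiteness -/

theorem finite_zeros (Q : ℝ[X]) (h : Q.eval 100 ≠ 0) : {x : ℝ | Q.eval x = 0}.Finite := by
  have hQ : Q ≠ 0 := by
    rintro rfl
    simp at h
  have h1 : {x : ℝ | Q.eval x = 0} ⊆ Q.roots.toFinset := by
    intro x hx
    simp only [Finset.mem_coe, Multiset.mem_toFinset, mem_roots', ne_eq]
    exact ⟨hQ, hx⟩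
  exact (Finset.finite_toSet _).subset h1

theorem eval_D (x : ℝ) (n : ℕ) : (D (X : ℝ[X]) n).eval x = D x n := by
  have := map_D (evalRingHom x) (X : ℝ[X]) n
  simpa using this

theorem finite_E (p q : U → ℝ[X])
    (h : E P (fun v => (p v).eval 100) (fun v => (q v).eval 100) 100 = ⊥) :
    {x : ℝ | E P (fun v => (p v).eval x) (fun v => (q v).eval x) x ≠ ⊥}.Finite := by
  classical
  let N : Matrix U U ℝ[X] := Matrix.of fun v w =>
    (if v = w then X * p v - 4 * q v else 0) - 2 * X * ∑ j, if P.nb v j = w then q w else 0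
  have hN : ∀ (x : ℝ) (T : U → ℝ), T ∈ E P (fun v => (p v).eval x) (fun v => (q v).eval x) x ↔
      ((evalRingHom x).mapMatrix N).mulVec T = 0 := by
    intro x T
    rw [mem_E, funext_iff]
    refine forall_congr' fun v => ?_
    have h1 : ((evalRingHom x).mapMatrix N).mulVec T v =
        (x * (p v).eval x - 4 * (q v).eval x) * T v -
        2 * x * nbs P (fun w => (q w).eval x * T w) v := by
      unfold Matrix.mulVec dotProduct
      have h2 : ∀ w, (evalRingHom x).mapMatrix N v w * T w =
          (if v = w then (x * (p v).eval x - 4 * (q v).eval x) * T w else 0) -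
          2 * x * ∑ j, if P.nb v j = w then (q w).eval x * T w else 0 := by
        intro w
        have h3 : (evalRingHom x).mapMatrix N v w = (if v = w then
            (x * (p v).eval x - 4 * (q v).eval x) else 0) -
            2 * x * ∑ j, if P.nb v j = w then (q w).eval x else 0 := by
          show (N v w).eval x = _
          simp only [N, Matrix.of_apply, eval_sub, eval_mul, eval_finsetSum, eval_ofNat, eval_X]
          congr 1
          · split_ifs <;> simp
          · congr 1
            refine Finset.sum_congr rfl fun j _ => ?_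
            split_ifs <;> simp
        rw [h3, sub_mul, mul_assoc, Finset.sum_mul]
        congr 1
        · split_ifs
          · rfl
          · rw [zero_mul]
        · congr 1
          refine Finset.sum_congr rfl fun j _ => ?_
          split_ifs
          · rfl
          · rw [zero_mul]
      rw [Finset.sum_congr rfl fun w _ => h2 w, Finset.sum_sub_distrib, Finset.sum_ite_eq,
        if_pos (Finset.mem_univ v), ← Finset.mul_sum, Finset.sum_comm]
      unfold nbs
      congr 2
      refine Finset.sum_congr rfl fun j _ => ?_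
      rw [Finset.sum_ite_eq, if_pos (Finset.mem_univ _)]
    rw [h1, Pi.zero_apply, sub_eq_zero]
  refine (finite_zeros N.det ?_).subset ?_
  · intro h1
    have h2 : ((evalRingHom (100 : ℝ)).mapMatrix N).det = 0 := by
      rw [← RingHom.map_det]
      exact h1
    obtain ⟨T, hT0, hT⟩ := Matrix.exists_mulVec_eq_zero_iff.2 h2
    have h3 := (hN 100 T).2 hT
    rw [h, Submodule.mem_bot] at h3
    exact hT0 h3
  · intro x hx
    obtain ⟨T, hT, hT0⟩ := Submodule.exists_mem_ne_zero_of_ne_bot hx
    have h2 := Matrix.exists_mulVec_eq_zero_iff.1 ⟨T, hT0, (hN x T).1 hT⟩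
    show N.det.eval x = 0
    rw [← RingHom.map_det] at h2
    exact h2

/-! ### The point `100` -/

theorem small_of {p q : U → ℝ} {T : U → ℝ} (hT : T ∈ E P p q 100) {u : U} (hq : 0 < q u)
    (hp : 99 * q u ≤ p u) {M : ℝ} (hM : ∀ w, |q w * T w| ≤ M) : 9896 * |q u * T u| ≤ 600 * M := by
  have h1 := hT u
  have h2 : |nbs P (fun w => q w * T w) u| ≤ 3 * M := by
    unfold nbs
    refine (Finset.abs_sum_le_sum_abs _ _).trans ?_
    refine (Finset.sum_le_sum fun j _ => hM (P.nb u j)).trans ?_
    simp
  have h3 : |100 * p u - 4 * q u| * |T u| ≤ 600 * M := by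
    rw [← abs_mul, h1, abs_mul]
    norm_num
    linarith
  have h4 : 9896 * q u ≤ |100 * p u - 4 * q u| := by
    refine le_trans ?_ (le_abs_self _)
    linarith
  rw [abs_mul, abs_of_pos hq, ← mul_assoc]
  exact (mul_le_mul_of_nonneg_right h4 (abs_nonneg _)).trans h3

theorem eq_zero_of_max {q T : U → ℝ} (hq : ∀ u, 0 < q u) {u : U}
    (hu : ∀ w, |q w * T w| ≤ |q u * T u|) (h : |q u * T u| ≤ 0) : T = 0 := by
  funext w
  have h1 := (hu w).trans h
  have h2 : q w * T w = 0 := abs_eq_zero.1 (le_antisymm h1 (abs_nonneg _))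
  exact (mul_eq_zero.1 h2).resolve_left (hq w).ne'

theorem big1 {p q : U → ℝ} (h : ∀ u, 0 < q u ∧ 99 * q u ≤ p u) : E P p q 100 = ⊥ := by
  rw [eq_bot_iff]
  intro T hT
  rw [Submodule.mem_bot]
  rcases isEmpty_or_nonempty U with hU | hU
  · exact Subsingleton.elim _ _
  obtain ⟨u, hu⟩ := Finite.exists_max fun u => |q u * T u|
  refine eq_zero_of_max (fun u => (h u).1) hu ?_
  have h1 := small_of P hT (h u).1 (h u).2 hu
  linarith

theorem big2 {p q : U → ℝ} (v : U) (h : ∀ u, u ≠ v → 0 < q u ∧ 99 * q u ≤ p u ∧ p u ≤ 100 * q u)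
    (hq : 0 < q v) (hp : 99 * p v ≤ 4 * q v) : E P p q 100 = ⊥ := by
  rw [eq_bot_iff]
  intro T₀ hT₀
  rw [Submodule.mem_bot]
  have hqq : ∀ u, 0 < q u := by
    intro u
    by_cases hu : u = v
    · rw [hu]; exact hq
    · exact (h u hu).1
  -- make the value at `v` nonnegative
  obtain ⟨T, hT, hTv, hTT⟩ : ∃ T ∈ E P p q 100, 0 ≤ T v ∧ (T = 0 → T₀ = 0) := by
    rcases le_total 0 (T₀ v) with h1 | h1
    · exact ⟨T₀, hT₀, h1, id⟩
    · exact ⟨-T₀, (E P p q 100).neg_mem hT₀, by simpa using h1, fun h => neg_eq_zero.1 h⟩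
  refine hTT ?_
  have hU : Nonempty U := ⟨v⟩
  obtain ⟨u, hu⟩ := Finite.exists_max fun u => |q u * T u|
  by_cases huv : u = v
  swap
  · refine eq_zero_of_max hqq hu ?_
    have h1 := small_of P hT (h u huv).1 (h u huv).2.1 hu
    linarith
  subst huv
  refine eq_zero_of_max hqq hu ?_
  have hX : 0 ≤ q u * T u := mul_nonneg hq.le hTv
  rw [abs_of_nonneg hX] at hu ⊢
  set M := q u * T u with hM
  have hsm : ∀ w, w ≠ u → |q w * T w| ≤ 0.061 * M := by
    intro w hw
    have h1 := small_of P hT (h w hw).1 (h w hw).2.1 hu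
    linarith
  have hnb : ∀ j, 0.0175 * M ≤ q (P.nb u j) * T (P.nb u j) := by
    intro j
    set w := P.nb u j with hw
    have hwu : w ≠ u := P.nb_ne u j
    obtain ⟨h1, h2, h3⟩ := h w hwu
    have h4 := hT w
    have h5 : 0.878 * M ≤ nbs P (fun w => q w * T w) w := by
      unfold nbs
      rw [← Finset.add_sum_erase _ _ (Finset.mem_univ (P.rv j))]
      have h6 : P.nb w (P.rv j) = u := by rw [hw, P.nb_nb]
      have h7 : |∑ l ∈ Finset.univ.erase (P.rv j), q (P.nb w l) * T (P.nb w l)| ≤ 2 * (0.061 * M) := by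
        refine (Finset.abs_sum_le_sum_abs _ _).trans ?_
        refine (Finset.sum_le_sum (g := fun _ => 0.061 * M) fun l hl => hsm _ ?_).trans ?_
        · intro h8
          rw [← h6] at h8
          exact (Finset.mem_erase.1 hl).1 (P.nb_inj _ _ _ h8)
        · rw [Finset.sum_const, Finset.card_erase_of_mem (Finset.mem_univ _)]
          simp
      rw [h6]
      have h8 := (abs_le.1 h7).1
      show 0.878 * M ≤ M + ∑ x ∈ Finset.univ.erase (P.rv j), q (P.nb w x) * T (P.nb w x)
      linarith
    have h6 : (100 * p w - 4 * q w) * T w = 2 * 100 * nbs P (fun w => q w * T w) w := h4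
    have hc : 0 < 100 * p w - 4 * q w := by linarith
    have hTw : 0 ≤ T w := by
      by_contra h7
      push Not at h7
      have h8 : (100 * p w - 4 * q w) * T w < 0 := mul_neg_of_pos_of_neg hc h7
      have h9 : 0 ≤ 0.878 * M := by positivity
      linarith
    have h7 : (100 * p w - 4 * q w) * T w ≤ 9996 * (q w * T w) := by
      rw [← mul_assoc]
      refine mul_le_mul_of_nonneg_right ?_ hTw
      linarith
    linarith
  have h1 := hT u
  have h2 : 3 * (0.0175 * M) ≤ nbs P (fun w => q w * T w) u := by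
    unfold nbs
    have := Finset.sum_le_sum (s := Finset.univ) fun j (_ : j ∈ Finset.univ) => hnb j
    simpa using this
  have h3 : (100 * p u - 4 * q u) * T u ≤ 0.05 * M := by
    rw [hM, ← mul_assoc]
    refine mul_le_mul_of_nonneg_right ?_ hTv
    linarith
  have h4 : (100 * p u - 4 * q u) * T u = 2 * 100 * nbs P (fun w => q w * T w) u := h1
  linarith

/-! ### The base system -/

theorem base {x : ℝ} (hx : Cyc x) {T : U → ℝ} (hT : T ∈ E P (fun _ => x) (fun _ => 1) x) :
    T = 0 := by
  by_contra hT0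
  obtain ⟨y, hy⟩ : ∃ y, x = 2 * y := ⟨x / 2, by ring⟩
  have h1 : ∀ v, (y * y - 1) * T v = y * nbs P T v := by
    intro v
    have := hT v
    simp only [one_mul, mul_one] at this
    have e : (fun w => T w) = T := rfl
    rw [e, hy] at this
    linear_combination this / 4
  have hy0 : y ≠ 0 := by
    rintro rfl
    apply hT0
    funext v
    have := h1 v
    simp only [mul_zero, zero_sub, zero_mul, neg_mul, one_mul, neg_eq_zero] at this
    exact this
  -- `y` is an eigenvalue of an integral matrix
  classical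
  let Bz : Matrix U U ℤ := Matrix.of fun v w => ∑ j, if P.nb v j = w then 1 else 0
  let A : Matrix (U ⊕ U) (U ⊕ U) ℤ := Matrix.fromBlocks Bz 1 1 0
  let z : U ⊕ U → ℝ := Sum.elim (fun v => y * T v) T
  have hA : (A.map (Int.castRingHom ℝ)).mulVec z = y • z := by
    have hA2 : A.map (Int.castRingHom ℝ) =
        Matrix.fromBlocks (Bz.map (Int.castRingHom ℝ)) 1 1 0 := by
      simp only [A, Matrix.fromBlocks_map]
      congr 1
      · exact Matrix.map_one _ (by simp) (by simp)
      · exact Matrix.map_one _ (by simp) (by simp)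
      · exact Matrix.map_zero _ (by simp)
    have hB : ∀ (f : U → ℝ) (v : U), (Bz.map (Int.castRingHom ℝ)).mulVec f v = nbs P f v := by
      intro f v
      unfold Matrix.mulVec dotProduct nbs
      simp only [Matrix.map_apply, Bz, Matrix.of_apply, map_sum, Finset.sum_mul]
      rw [Finset.sum_comm]
      refine Finset.sum_congr rfl fun j _ => ?_
      simp
    rw [hA2, Matrix.fromBlocks_mulVec]
    funext s
    rcases s with v | v
    · simp only [Sum.elim_inl, Pi.smul_apply, smul_eq_mul, z, Pi.add_apply, Matrix.one_mulVec]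
      have e1 : (Sum.elim (fun v => y * T v) T ∘ Sum.inl : U → ℝ) = fun v => y * T v := rfl
      have e2 : (Sum.elim (fun v => y * T v) T ∘ Sum.inr : U → ℝ) = T := rfl
      rw [e1, e2, hB]
      have h2 := h1 v
      have h3 : nbs P (fun v => y * T v) v = y * nbs P T v := by
        unfold nbs
        rw [Finset.mul_sum]
      rw [h3]
      linear_combination -h2
    · simp only [Sum.elim_inr, Pi.smul_apply, smul_eq_mul, z, Pi.add_apply, Matrix.one_mulVec,
        Matrix.zero_mulVec, Pi.zero_apply, add_zero]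
      rfl
  have hz : z ≠ 0 := by
    intro h
    apply hT0
    funext v
    exact congrFun h (Sum.inr v)
  have hint : IsIntegral ℤ y := by
    refine ⟨A.charpoly, A.charpoly_monic, ?_⟩
    have h2 : (A.map (Int.castRingHom ℝ)).charpoly.eval y = 0 := by
      rw [Matrix.eval_charpoly]
      refine Matrix.exists_mulVec_eq_zero_iff.1 ⟨z, hz, ?_⟩
      rw [Matrix.sub_mulVec, hA]
      funext s
      simp [Matrix.scalar_apply, Matrix.mulVec_diagonal]
    rw [Matrix.charpoly_map, eval_map] at h2
    exact h2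
  rw [hy] at hx
  exact hy0 (eq_zero_of_half hint hx)

end Pool.Agent.K4H86.SS
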